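import Pool.Agent.Run7.h658.QU.Kal

/-!
The interlacing distance on lists of natural numbers.
-/

set_option autoImplicit false

namespace Run7.h658.QU

/-- The number of entries which are at most `n`. -/
def cnt (l : List ℕ) (n : ℕ) : ℕ := l.countP fun x => x ≤ n

theorem cnt_le (l : List ℕ) (n : ℕ) : cnt l n ≤ l.length := List.countP_le_length

theorem cnt_nil (n : ℕ) : cnt [] n = 0 := rfl

theorem cnt_cons (a : ℕ) (l : List ℕ) (n : ℕ) :
    cnt (a :: l) n = cnt l n + if a ≤ n then 1 else 0 := by
  simp [cnt, List.countP_cons]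

/-- The values whose supremum is the distance. -/
def dif (l l' : List ℕ) (n : ℕ) : ℕ := ((cnt l n : ℤ) - cnt l' n).natAbs

/-- The interlacing distance. -/
noncomputable def lam (l l' : List ℕ) : ℕ := sSup (Set.range (dif l l'))

theorem dif_bdd (l l' : List ℕ) : BddAbove (Set.range (dif l l')) := by
  refine ⟨l.length + l'.length, ?_⟩
  rintro _ ⟨n, rfl⟩
  have h1 := cnt_le l n
  have h2 := cnt_le l' n
  simp only [dif]
  omega

theorem dif_le_lam (l l' : List ℕ) (n : ℕ) : dif l l' n ≤ lam l l' :=
  le_csSup (dif_bdd l l') ⟨n, rfl⟩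

theorem lam_le {l l' : List ℕ} {c : ℕ} (h : ∀ n, dif l l' n ≤ c) : lam l l' ≤ c := by
  refine csSup_le ⟨_, ⟨0, rfl⟩⟩ ?_
  rintro _ ⟨n, rfl⟩
  exact h n

theorem lam_self (l : List ℕ) : lam l l = 0 :=
  Nat.le_zero.1 (lam_le fun n => by simp [dif])

theorem lam_symm (l l' : List ℕ) : lam l l' = lam l' l := by
  have h : ∀ l l', lam l l' ≤ lam l' l := fun l l' => lam_le fun n => by
    have := dif_le_lam l' l n
    simp only [dif] at this ⊢
    omega
  exact le_antisymm (h l l') (h l' l)

theorem lam_tri (l l' l'' : List ℕ) : lam l l'' ≤ lam l l' + lam l' l'' := lam_le fun n => by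
  have h1 := dif_le_lam l l' n
  have h2 := dif_le_lam l' l'' n
  simp only [dif] at h1 h2 ⊢
  omega

theorem lam_nil (l : List ℕ) : lam [] l = l.length := by
  refine le_antisymm (lam_le fun n => ?_) ?_
  · have := cnt_le l n
    simp only [dif, cnt_nil]
    omega
  · refine le_trans ?_ (dif_le_lam [] l (l.foldr max 0))
    have h1 : cnt l (l.foldr max 0) = l.length := by
      rw [cnt, List.countP_eq_length]
      intro a ha
      have := List.le_max_of_le' 0 ha le_rfl
      simpa using this
    simp only [dif, cnt_nil, h1]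
    omega

theorem lam_sep {k N : ℕ} {l l' : List ℕ} (hl : l.length = k) (hl' : l'.length = k)
    (h : ∀ x ∈ l, x ≤ N) (h' : ∀ x ∈ l', N < x) : lam l l' = k := by
  refine le_antisymm (lam_le fun n => ?_) ?_
  · have h1 := cnt_le l n
    have h2 := cnt_le l' n
    simp only [dif]
    omega
  · refine le_trans ?_ (dif_le_lam l l' N)
    have h1 : cnt l N = k := by
      rw [← hl, cnt, List.countP_eq_length]
      intro a ha
      simpa using h a ha
    have h2 : cnt l' N = 0 := by
      rw [cnt, List.countP_eq_zero]
      intro a ha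
      simpa using h' a ha
    simp only [dif, h1, h2]
    omega

theorem inter_cnt (N : ℕ) (l l' : List ℕ) (h : Inter N l l') (n : ℕ) :
    cnt l' n ≤ cnt l n ∧ cnt l n ≤ cnt l' n + 1 ∧ (n ≤ N → cnt l n = 0) := by
  induction l generalizing N l' with
  | nil =>
    cases l' with
    | nil => simp [cnt_nil]
    | cons => exact absurd h (by simp [Inter])
  | cons a l ih =>
    cases l' with
    | nil => exact absurd h (by simp [Inter])
    | cons b l' =>
      obtain ⟨h1, h2, h3⟩ := h
      obtain ⟨e1, e2, e3⟩ := ih b l' h3
      rw [cnt_cons, cnt_cons]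
      by_cases hb : b ≤ n
      · have ha : a ≤ n := by omega
        rw [if_pos ha, if_pos hb]
        refine ⟨by omega, by omega, fun h => by omega⟩
      · have e4 := e3 (by omega)
        rw [if_neg hb]
        split_ifs with ha
        · refine ⟨by omega, by omega, fun h => by omega⟩
        · refine ⟨by omega, by omega, fun h => by omega⟩

theorem lam_inter {N : ℕ} {l l' : List ℕ} (h : Inter N l l') (hl : l ≠ []) : lam l l' = 1 := by
  refine le_antisymm (lam_le fun n => ?_) ?_
  · have h1 := inter_cnt N l l' h n
    simp only [dif]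
    omega
  · cases l with
    | nil => exact absurd rfl hl
    | cons a l =>
      cases l' with
      | nil => exact absurd h (by simp [Inter])
      | cons b l' =>
        obtain ⟨h1, h2, h3⟩ := h
        refine le_trans ?_ (dif_le_lam _ _ a)
        have e1 := inter_cnt b l l' h3 a
        have e2 := e1.2.2 h2.le
        simp only [dif, cnt_cons, e2, if_pos le_rfl, if_neg (not_le.2 h2)]
        omega

end Run7.h658.QU
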