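import Pool.Agent.Run7.h658.QU.Ext

/-!
Existence of the rational Urysohn space.
-/

set_option autoImplicit false

namespace Run7.h658.QU

/-- `d` is a metric on the numbers below `n`. -/
structure IsMet (n : ℕ) (d : ℕ → ℕ → ℚ) : Prop where
  self : ∀ i < n, d i i = 0
  pos : ∀ i < n, ∀ j < n, i ≠ j → 0 < d i j
  symm : ∀ i < n, ∀ j < n, d i j = d j i
  tri : ∀ i < n, ∀ j < n, ∀ k < n, d i k ≤ d i j + d j k

theorem IsMet.nonneg {n : ℕ} {d : ℕ → ℕ → ℚ} (h : IsMet n d) (i : ℕ) (hi : i < n) (j : ℕ)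
    (hj : j < n) : 0 ≤ d i j := by
  rcases eq_or_ne i j with rfl | hne
  · rw [h.self i hi]
  · exact (h.pos i hi j hj hne).le

/-- A task: the function `r` on `A` is the distance function of a new point. -/
def Kat (A : Finset ℕ) (r : ℕ → ℚ) (d : ℕ → ℕ → ℚ) : Prop :=
  (∀ a ∈ A, 0 < r a) ∧ ∀ a ∈ A, ∀ b ∈ A, |r a - r b| ≤ d a b ∧ d a b ≤ r a + r b

/-- The metric with one more point. -/
def addPt (n : ℕ) (d : ℕ → ℕ → ℚ) (e : ℕ → ℚ) : ℕ → ℕ → ℚ := fun i j =>
  if i < n then (if j < n then d i j else e i) else (if j < n then e j else 0)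

theorem addPt_met {n : ℕ} {d : ℕ → ℕ → ℚ} (h : IsMet n d) (e : ℕ → ℚ) (he : ∀ i < n, 0 < e i)
    (hl : ∀ i < n, ∀ j < n, e i ≤ e j + d j i) (hu : ∀ i < n, ∀ j < n, d i j ≤ e i + e j) :
    IsMet (n + 1) (addPt n d e) := by
  have hcase : ∀ i, i < n + 1 → i < n ∨ i = n := fun i hi => by omega
  refine ⟨fun i hi => ?_, fun i hi j hj hij => ?_, fun i hi j hj => ?_,
    fun i hi j hj k hk => ?_⟩
  · rcases hcase i hi with h1 | rfl
    · simp [addPt, h1, h.self i h1]
    · simp [addPt]
  · rcases hcase i hi with h1 | rfl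
    · rcases hcase j hj with h2 | rfl
      · simp [addPt, h1, h2, h.pos i h1 j h2 hij]
      · simp [addPt, h1, he i h1]
    · rcases hcase j hj with h2 | rfl
      · simp [addPt, h2, he j h2]
      · exact absurd rfl hij
  · rcases hcase i hi with h1 | rfl
    · rcases hcase j hj with h2 | rfl
      · simp [addPt, h1, h2, h.symm i h1 j h2]
      · simp [addPt, h1]
    · rcases hcase j hj with h2 | rfl
      · simp [addPt, h2]
      · simp [addPt]
  · rcases hcase i hi with h1 | rfl
    · rcases hcase j hj with h2 | rfl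
      · rcases hcase k hk with h3 | rfl
        · simp [addPt, h1, h2, h3, h.tri i h1 j h2 k h3]
        · have := hl i h1 j h2
          rw [h.symm j h2 i h1] at this
          simp only [addPt, h1, h2, if_true, lt_irrefl, if_false]
          linarith
      · rcases hcase k hk with h3 | rfl
        · have := hu i h1 k h3
          simp only [addPt, h1, h3, if_true, lt_irrefl, if_false]
          linarith
        · simp [addPt, h1]
    · rcases hcase j hj with h2 | rfl
      · rcases hcase k hk with h3 | rfl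
        · have := hl k h3 j h2
          simp only [addPt, h2, h3, if_true, lt_irrefl, if_false]
          linarith
        · have := he j h2
          simp only [addPt, h2, if_true, lt_irrefl, if_false]
          linarith
      · rcases hcase k hk with h3 | rfl
        · simp [addPt, h3]
        · simp [addPt]

/-- The one-point extensions. -/
theorem exists_addPt {n : ℕ} {d : ℕ → ℕ → ℚ} (h : IsMet n d) (A : Finset ℕ) (r : ℕ → ℚ)
    (hA : ∀ a ∈ A, a < n) (hr : Kat A r d) :
    ∃ d', IsMet (n + 1) d' ∧ (∀ i < n, ∀ j < n, d i j = d' i j) ∧ ∀ a ∈ A, d' n a = r a := by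
  rcases n.eq_zero_or_pos with rfl | hn
  · refine ⟨addPt 0 d (fun _ => 1), addPt_met h _ (by simp) (by simp) (by simp), by simp, ?_⟩
    intro a ha
    exact absurd (hA a ha) (by omega)
  · -- the nonempty case
    have key : ∀ (A : Finset ℕ) (r : ℕ → ℚ), A.Nonempty → (∀ a ∈ A, a < n) → Kat A r d →
        ∃ d', IsMet (n + 1) d' ∧ (∀ i < n, ∀ j < n, d i j = d' i j) ∧ ∀ a ∈ A, d' n a = r a := by
      intro A r hAn hA hr
      let e : ℕ → ℚ := fun i => A.inf' hAn fun a => r a + d a i
      have he1 : ∀ i, ∀ a ∈ A, e i ≤ r a + d a i := fun i a ha => Finset.inf'_le _ ha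
      have he2 : ∀ i, ∃ a ∈ A, e i = r a + d a i := fun i => by
        obtain ⟨a, ha, h⟩ := Finset.exists_mem_eq_inf' hAn fun a => r a + d a i
        exact ⟨a, ha, h⟩
      have he : ∀ i < n, 0 < e i := fun i hi => by
        obtain ⟨a, ha, h1⟩ := he2 i
        rw [h1]
        have := hr.1 a ha
        have := h.nonneg a (hA a ha) i hi
        linarith
      have heA : ∀ a ∈ A, e a = r a := by
        intro a ha
        refine le_antisymm ?_ ?_
        · have := he1 a a ha
          rwa [h.self a (hA a ha), add_zero] at this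
        · obtain ⟨b, hb, h1⟩ := he2 a
          rw [h1]
          have h2 := (abs_le.1 (hr.2 a ha b hb).1).2
          rw [h.symm a (hA a ha) b (hA b hb)] at h2
          linarith
      refine ⟨addPt n d e, addPt_met h e he (fun i hi j hj => ?_) (fun i hi j hj => ?_),
        fun i hi j hj => by simp [addPt, hi, hj], fun a ha => ?_⟩
      · obtain ⟨a, ha, h1⟩ := he2 j
        have h2 := he1 i a ha
        have h3 := h.tri a (hA a ha) j hj i hi
        linarith
      · obtain ⟨a, ha, h1⟩ := he2 i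
        obtain ⟨b, hb, h2⟩ := he2 j
        have h3 := h.tri i hi a (hA a ha) j hj
        have h4 := h.tri a (hA a ha) b (hA b hb) j hj
        have h5 := (hr.2 a ha b hb).2
        rw [h.symm i hi a (hA a ha)] at h3
        linarith
      · simp only [addPt, lt_irrefl, if_false, hA a ha, if_true]
        exact heA a ha
    rcases A.eq_empty_or_nonempty with rfl | hAn
    · obtain ⟨d', h1, h2, -⟩ := key {0} (fun _ => 1) (Finset.singleton_nonempty 0)
        (by simpa using hn) ⟨by simp, by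
          intro a ha b hb
          rw [Finset.mem_singleton] at ha hb
          subst ha
          subst hb
          rw [h.self 0 hn]
          norm_num⟩
      exact ⟨d', h1, h2, by simp⟩
    · exact key A r hAn hA hr

/-- Finite metric spaces on initial segments. -/
def FM : Type := {p : ℕ × (ℕ → ℕ → ℚ) // IsMet p.1 p.2}

instance : Preorder FM where
  le p q := p.1.1 ≤ q.1.1 ∧ ∀ i < p.1.1, ∀ j < p.1.1, p.1.2 i j = q.1.2 i j
  le_refl p := ⟨le_rfl, fun _ _ _ _ => rfl⟩
  le_trans p q r h h' := ⟨h.1.trans h'.1, fun i hi j hj =>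
    (h.2 i hi j hj).trans (h'.2 i (lt_of_lt_of_le hi h.1) j (lt_of_lt_of_le hj h.1))⟩

theorem FM.extend (p : FM) (N : ℕ) : ∃ q : FM, p ≤ q ∧ N ≤ q.1.1 := by
  induction N with
  | zero => exact ⟨p, le_rfl, Nat.zero_le _⟩
  | succ N ih =>
    obtain ⟨q, hq, hN⟩ := ih
    obtain ⟨d', h1, h2, -⟩ := exists_addPt q.2 ∅ (fun _ => 0) (by simp) ⟨by simp, by simp⟩
    exact ⟨⟨(q.1.1 + 1, d'), h1⟩, hq.trans ⟨Nat.le_succ _, h2⟩, Nat.succ_le_succ hN⟩

/-- The points of the space. -/
structure Pt : Type where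
  /-- the number of the point -/
  down : ℕ

theorem Pt.ext' {x y : Pt} (h : x.down = y.down) : x = y := by
  cases x
  cases y
  simp_all

theorem exists_QU : ∃ (X : Type) (_ : MetricSpace X), IsQU X := by
  classical
  let D : Finset ℕ × (ℕ →₀ ℚ) → Order.Cofinal FM := fun t =>
    { carrier := {p | (∀ a ∈ t.1, a < p.1.1) ∧ (Kat t.1 t.2 p.1.2 →
        ∃ x < p.1.1, ∀ a ∈ t.1, p.1.2 x a = t.2 a)}
      isCofinal := by
        intro p
        obtain ⟨q, hpq, hN⟩ := p.extend (t.1.sup id + 1)
        have hlt : ∀ a ∈ t.1, a < q.1.1 := fun a ha =>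
          lt_of_lt_of_le (Nat.lt_succ_of_le (Finset.le_sup (f := id) ha)) hN
        by_cases hK : Kat t.1 t.2 q.1.2
        · obtain ⟨d', h1, h2, h3⟩ := exists_addPt q.2 t.1 t.2 hlt hK
          refine ⟨⟨(q.1.1 + 1, d'), h1⟩, ⟨fun a ha => Nat.lt_succ_of_lt (hlt a ha),
            fun _ => ⟨q.1.1, Nat.lt_succ_self _, h3⟩⟩, hpq.trans ⟨Nat.le_succ _, h2⟩⟩
        · exact ⟨q, ⟨hlt, fun h => absurd h hK⟩, hpq⟩ }
  have hen : Encodable (Finset ℕ × (ℕ →₀ ℚ)) := Encodable.ofCountable _
  let p₀ : FM := ⟨(0, fun _ _ => 0), ⟨by simp, by simp, by simp, by simp⟩⟩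
  let s := Order.sequenceOfCofinals p₀ D
  have hmono : Monotone s := Order.sequenceOfCofinals.monotone p₀ D
  have hmem : ∀ t, s (Encodable.encode t + 1) ∈ (D t).carrier :=
    fun t => Order.sequenceOfCofinals.encode_mem p₀ D t
  have hdom : ∀ i : ℕ, ∃ n, i < (s n).1.1 := fun i =>
    ⟨_, (hmem ({i}, 0)).1 i (Finset.mem_singleton_self i)⟩
  choose ν hν using hdom
  let d : ℕ → ℕ → ℚ := fun i j => (s (max (ν i) (ν j))).1.2 i j
  have hd : ∀ n i j, i < (s n).1.1 → j < (s n).1.1 → d i j = (s n).1.2 i j := by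
    intro n i j hi hj
    have h1 : s (max (ν i) (ν j)) ≤ s (max n (max (ν i) (ν j))) := hmono (le_max_right _ _)
    have h2 : s n ≤ s (max n (max (ν i) (ν j))) := hmono (le_max_left _ _)
    have h3 : s (ν i) ≤ s (max (ν i) (ν j)) := hmono (le_max_left _ _)
    have h4 : s (ν j) ≤ s (max (ν i) (ν j)) := hmono (le_max_right _ _)
    show (s (max (ν i) (ν j))).1.2 i j = _
    rw [h1.2 i (lt_of_lt_of_le (hν i) h3.1) j (lt_of_lt_of_le (hν j) h4.1), h2.2 i hi j hj]
  have hcom : ∀ i j k : ℕ, ∃ n, i < (s n).1.1 ∧ j < (s n).1.1 ∧ k < (s n).1.1 := by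
    intro i j k
    refine ⟨max (ν i) (max (ν j) (ν k)), lt_of_lt_of_le (hν i) (hmono (le_max_left _ _)).1,
      lt_of_lt_of_le (hν j) (hmono ((le_max_left _ _).trans (le_max_right _ _))).1,
      lt_of_lt_of_le (hν k) (hmono ((le_max_right _ _).trans (le_max_right _ _))).1⟩
  let m : MetricSpace Pt :=
    { dist := fun x y => (d x.down y.down : ℝ)
      dist_self := fun x => by
        obtain ⟨n, hi, -, -⟩ := hcom x.down x.down x.down
        show ((d x.down x.down : ℚ) : ℝ) = 0
        rw [hd n _ _ hi hi, (s n).2.self _ hi, Rat.cast_zero]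
      dist_comm := fun x y => by
        obtain ⟨n, hi, hj, -⟩ := hcom x.down y.down y.down
        show ((d x.down y.down : ℚ) : ℝ) = ((d y.down x.down : ℚ) : ℝ)
        rw [hd n _ _ hi hj, hd n _ _ hj hi, (s n).2.symm _ hi _ hj]
      dist_triangle := fun x y z => by
        obtain ⟨n, hi, hj, hk⟩ := hcom x.down y.down z.down
        show ((d x.down z.down : ℚ) : ℝ) ≤ ((d x.down y.down : ℚ) : ℝ) +
          ((d y.down z.down : ℚ) : ℝ)
        rw [hd n _ _ hi hj, hd n _ _ hj hk, hd n _ _ hi hk]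
        exact_mod_cast (s n).2.tri _ hi _ hj _ hk
      eq_of_dist_eq_zero := fun {x y} h => by
        obtain ⟨n, hi, hj, -⟩ := hcom x.down y.down y.down
        have h1 : ((d x.down y.down : ℚ) : ℝ) = 0 := h
        by_contra hne
        have h2 := (s n).2.pos _ hi _ hj (fun h => hne (Pt.ext' h))
        rw [← hd n _ _ hi hj] at h2
        have h3 : d x.down y.down = 0 := by exact_mod_cast h1
        exact absurd h3 h2.ne' }
  refine ⟨Pt, m, ?_⟩
  have hdist : ∀ x y : Pt, dist x y = ((d x.down y.down : ℚ) : ℝ) := fun x y => rfl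
  have hct : Countable Pt := Function.Injective.countable (f := Pt.down) fun x y h => Pt.ext' h
  refine ⟨hct, fun x y => ⟨_, hdist x y⟩, ?_⟩
  intro A f hpos hf
  let B : Finset ℕ := A.image Pt.down
  let r : ℕ →₀ ℚ := Finsupp.onFinset B (fun a => if a ∈ B then f ⟨a⟩ else 0) (by
    intro a ha
    by_contra h
    simp [h] at ha)
  have hr : ∀ a ∈ A, r a.down = f a := by
    intro a ha
    have : a.down ∈ B := Finset.mem_image_of_mem _ ha
    simp [r, this]
  set n := Encodable.encode (B, r) + 1 with hn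
  have hsn := hmem (B, r)
  rw [← hn] at hsn
  obtain ⟨h1, h2⟩ := hsn
  obtain ⟨x, hx, hxa⟩ := h2 (by
    constructor
    · intro a ha
      obtain ⟨b, hb, rfl⟩ := Finset.mem_image.1 ha
      rw [hr b hb]
      exact hpos b hb
    · intro a ha a' ha'
      have ha1 := h1 a ha
      have ha1' := h1 a' ha'
      obtain ⟨b, hb, rfl⟩ := Finset.mem_image.1 ha
      obtain ⟨b', hb', rfl⟩ := Finset.mem_image.1 ha'
      rw [hr b hb, hr b' hb', ← hd n _ _ ha1 ha1']
      have h3 := hf b hb b' hb'
      rw [hdist] at h3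
      constructor
      · exact_mod_cast h3.1
      · exact_mod_cast h3.2)
  refine ⟨⟨x⟩, fun a ha => ?_⟩
  rw [hdist, hd n x a.down hx (h1 _ (Finset.mem_image_of_mem _ ha)),
    hxa a.down (Finset.mem_image_of_mem _ ha)]
  show ((r a.down : ℚ) : ℝ) = _
  rw [hr a ha]

end Run7.h658.QU
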