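import Mathlib

/-!
The rational Urysohn space: embeddings of countable rational pseudometric spaces and
ultrahomogeneity, from the extension property.
-/

set_option autoImplicit false

namespace Run7.h658.QU

/-- The rational Urysohn space (countable, rational distances, extension property). -/
structure IsQU (X : Type) [MetricSpace X] : Prop where
  countable : Countable X
  rational : ∀ x y : X, ∃ q : ℚ, dist x y = (q : ℝ)
  ext : ∀ (A : Finset X) (f : X → ℚ), (∀ a ∈ A, 0 < f a) →
    (∀ a ∈ A, ∀ b ∈ A, |(f a : ℝ) - (f b : ℝ)| ≤ dist a b ∧ dist a b ≤ (f a : ℝ) + (f b : ℝ)) →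
    ∃ x : X, ∀ a ∈ A, dist x a = (f a : ℝ)

variable {X : Type} [MetricSpace X]

/-- One-point extensions over an indexed finite family of points. -/
theorem IsQU.one_point (hX : IsQU X) {κ : Type} (A : Finset κ) (j : κ → X) (r : κ → ℚ)
    (hpos : ∀ a ∈ A, 0 < r a)
    (h : ∀ a ∈ A, ∀ b ∈ A, |(r a : ℝ) - (r b : ℝ)| ≤ dist (j a) (j b) ∧
      dist (j a) (j b) ≤ (r a : ℝ) + (r b : ℝ)) :
    ∃ x : X, ∀ a ∈ A, dist x (j a) = (r a : ℝ) := by
  classical
  let f : X → ℚ := fun x => if h : ∃ a ∈ A, j a = x then r h.choose else 0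
  have hf : ∀ a ∈ A, f (j a) = r a := by
    intro a ha
    have hex : ∃ a' ∈ A, j a' = j a := ⟨a, ha, rfl⟩
    have h1 : f (j a) = r hex.choose := by
      simp only [f]
      rw [dif_pos hex]
    have h2 := hex.choose_spec
    have h3 := (h _ h2.1 a ha).1
    rw [h2.2, dist_self] at h3
    have h4 := abs_nonpos_iff.1 h3
    rw [h1]
    exact_mod_cast sub_eq_zero.1 h4
  obtain ⟨x, hx⟩ := hX.ext (A.image j) f
    (by
      intro a ha
      obtain ⟨b, hb, rfl⟩ := Finset.mem_image.1 ha
      rw [hf b hb]
      exact hpos b hb)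
    (by
      intro a ha a' ha'
      obtain ⟨b, hb, rfl⟩ := Finset.mem_image.1 ha
      obtain ⟨b', hb', rfl⟩ := Finset.mem_image.1 ha'
      rw [hf b hb, hf b' hb']
      exact h b hb b' hb')
  refine ⟨x, fun a ha => ?_⟩
  rw [hx _ (Finset.mem_image_of_mem j ha), hf a ha]

section embed

variable {Y : Type} (d : Y → Y → ℚ)

/-- Finite partial embeddings. -/
def PE (X : Type) [MetricSpace X] {Y : Type} (d : Y → Y → ℚ) : Type :=
  {p : Finset Y × (Y → X) // ∀ y ∈ p.1, ∀ z ∈ p.1, dist (p.2 y) (p.2 z) = (d y z : ℝ)}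

instance : Preorder (PE X d) where
  le p q := p.1.1 ⊆ q.1.1 ∧ ∀ y ∈ p.1.1, p.1.2 y = q.1.2 y
  le_refl p := ⟨subset_rfl, fun _ _ => rfl⟩
  le_trans p q r h h' := ⟨h.1.trans h'.1, fun y hy => (h.2 y hy).trans (h'.2 y (h.1 hy))⟩

theorem PE.le_def (p q : PE X d) : p ≤ q ↔ p.1.1 ⊆ q.1.1 ∧ ∀ y ∈ p.1.1, p.1.2 y = q.1.2 y := Iff.rfl

/-- Countable rational pseudometric spaces embed into the rational Urysohn space. -/
theorem IsQU.embed (hX : IsQU X) [Countable Y] (h0 : ∀ y, d y y = 0)
    (hs : ∀ y z, d y z = d z y) (ht : ∀ x y z, d x z ≤ d x y + d y z) :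
    ∃ j : Y → X, ∀ y z, dist (j y) (j z) = (d y z : ℝ) := by
  classical
  have : Encodable Y := Encodable.ofCountable Y
  have hnn : ∀ y z, 0 ≤ d y z := by
    intro y z
    have h1 := ht y z y
    rw [h0, hs z y] at h1
    linarith
  obtain ⟨x₀, -⟩ := hX.ext ∅ (fun _ => 0) (by simp) (by simp)
  let D : Y → Order.Cofinal (PE X d) := fun y =>
    { carrier := {p | y ∈ p.1.1}
      isCofinal := by
        rintro ⟨⟨A, j⟩, hp⟩
        by_cases hy : y ∈ A
        · exact ⟨⟨⟨A, j⟩, hp⟩, hy, le_rfl⟩
        simp only at hp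
        obtain ⟨x, hx⟩ : ∃ x : X, ∀ a ∈ A, dist x (j a) = (d y a : ℝ) := by
          by_cases hz : ∃ a ∈ A, d y a = 0
          · obtain ⟨a, ha, hya⟩ := hz
            refine ⟨j a, fun b hb => ?_⟩
            rw [hp a ha b hb]
            have e1 := ht a y b
            have e2 := ht y a b
            rw [hs a y, hya] at e1
            rw [hya] at e2
            have e3 : d a b = d y b := by linarith
            rw [e3]
          · push Not at hz
            refine hX.one_point A j (fun a => d y a) (fun a ha =>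
              lt_of_le_of_ne (hnn _ _) (hz a ha).symm) (fun a ha b hb => ?_)
            rw [hp a ha b hb]
            have e1 := ht y a b
            have e2 := ht y b a
            have e3 := ht a y b
            rw [hs b a] at e2
            rw [hs a y] at e3
            constructor
            · rw [abs_le]
              constructor
              · have : (d y b : ℝ) ≤ d y a + d a b := by exact_mod_cast e1
                linarith
              · have : (d y a : ℝ) ≤ d y b + d a b := by exact_mod_cast e2
                linarith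
            · exact_mod_cast e3
        refine ⟨⟨⟨insert y A, Function.update j y x⟩, ?_⟩, Finset.mem_insert_self _ _, ?_⟩
        · intro z hz z' hz'
          simp only at hz hz' ⊢
          by_cases e1 : z = y
          · subst e1
            by_cases e2 : z' = z
            · subst e2
              rw [Function.update_self, dist_self, h0, Rat.cast_zero]
            · have hz'' : z' ∈ A := (Finset.mem_insert.1 hz').resolve_left e2
              rw [Function.update_self, Function.update_of_ne e2, hx z' hz'']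
          · have hz1 : z ∈ A := (Finset.mem_insert.1 hz).resolve_left e1
            by_cases e2 : z' = y
            · subst e2
              rw [Function.update_self, Function.update_of_ne e1, dist_comm, hx z hz1, hs z z']
            · have hz2 : z' ∈ A := (Finset.mem_insert.1 hz').resolve_left e2
              rw [Function.update_of_ne e1, Function.update_of_ne e2, hp z hz1 z' hz2]
        · show A ⊆ insert y A ∧ ∀ z ∈ A, j z = Function.update j y x z
          refine ⟨Finset.subset_insert _ _, fun z hz => ?_⟩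
          have hne : z ≠ y := fun h => hy (h ▸ hz)
          exact (Function.update_of_ne hne _ _).symm }
  let p₀ : PE X d := ⟨⟨∅, fun _ => x₀⟩, by simp⟩
  let s := Order.sequenceOfCofinals p₀ D
  have hmono : Monotone s := Order.sequenceOfCofinals.monotone p₀ D
  have hmem : ∀ y, y ∈ (s (Encodable.encode y + 1)).1.1 :=
    fun y => Order.sequenceOfCofinals.encode_mem p₀ D y
  refine ⟨fun y => (s (Encodable.encode y + 1)).1.2 y, fun y z => ?_⟩
  set N := max (Encodable.encode y + 1) (Encodable.encode z + 1) with hN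
  have h1 : s (Encodable.encode y + 1) ≤ s N := hmono (le_max_left _ _)
  have h2 : s (Encodable.encode z + 1) ≤ s N := hmono (le_max_right _ _)
  rw [PE.le_def] at h1 h2
  show dist ((s (Encodable.encode y + 1)).1.2 y) ((s (Encodable.encode z + 1)).1.2 z) = _
  rw [h1.2 y (hmem y), h2.2 z (hmem z)]
  exact (s N).2 y (h1.1 (hmem y)) z (h2.1 (hmem z))

end embed

section homog

/-- Finite partial isometries. -/
def PI (X : Type) [MetricSpace X] : Type :=
  {s : Finset (X × X) // ∀ p ∈ s, ∀ q ∈ s, dist p.1 q.1 = dist p.2 q.2}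

instance : Preorder (PI X) where
  le p q := p.1 ⊆ q.1
  le_refl p := subset_rfl
  le_trans p q r h h' := fun _ hx => h' (h hx)

theorem PI.le_def (p q : PI X) : p ≤ q ↔ p.1 ⊆ q.1 := Iff.rfl

/-- A finite partial isometry has an extension to one more point. -/
theorem IsQU.extend (hX : IsQU X) (s : Finset (X × X))
    (hs : ∀ p ∈ s, ∀ q ∈ s, dist p.1 q.1 = dist p.2 q.2) (x : X) :
    ∃ y : X, ∀ p ∈ s, dist x p.1 = dist y p.2 := by
  classical
  by_cases h : ∃ p ∈ s, p.1 = x
  · obtain ⟨p, hp, rfl⟩ := h
    exact ⟨p.2, fun q hq => hs p hp q hq⟩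
  · push Not at h
    choose r hr using fun p : X × X => hX.rational x p.1
    obtain ⟨y, hy⟩ := hX.one_point s (fun p => p.2) r
      (fun p hp => by
        have h1 : 0 < dist x p.1 := dist_pos.2 (h p hp).symm
        rw [hr] at h1
        exact_mod_cast h1)
      (fun p hp q hq => by
        rw [← hr, ← hr, ← hs p hp q hq]
        constructor
        · rw [dist_comm x, dist_comm x]
          exact abs_dist_sub_le _ _ _
        · rw [dist_comm x p.1]
          exact dist_triangle _ _ _)
    exact ⟨y, fun p hp => by rw [hy p hp, hr]⟩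

/-- **Ultrahomogeneity.** -/
theorem IsQU.homogeneous (hX : IsQU X) {ι : Type} [Finite ι] (a b : ι → X)
    (hab : ∀ i j, dist (a i) (a j) = dist (b i) (b j)) : ∃ g : X ≃ᵢ X, ∀ i, g (a i) = b i := by
  classical
  have : Countable X := hX.countable
  have : Encodable X := Encodable.ofCountable X
  have : Fintype ι := Fintype.ofFinite ι
  have hext : ∀ (p : PI X) (x : X), ∃ q : PI X, p ≤ q ∧ ∃ y, (x, y) ∈ q.1 := by
    rintro ⟨s, hs⟩ x
    obtain ⟨y, hy⟩ := hX.extend s hs x
    refine ⟨⟨insert (x, y) s, ?_⟩, Finset.subset_insert _ _, y, Finset.mem_insert_self _ _⟩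
    intro p hp q hq
    rcases Finset.mem_insert.1 hp with rfl | hp
    · rcases Finset.mem_insert.1 hq with rfl | hq
      · simp
      · exact hy q hq
    · rcases Finset.mem_insert.1 hq with rfl | hq
      · simp only
        rw [dist_comm p.1, dist_comm p.2]
        exact hy p hp
      · exact hs p hp q hq
  have hext' : ∀ (p : PI X) (y : X), ∃ q : PI X, p ≤ q ∧ ∃ x, (x, y) ∈ q.1 := by
    rintro ⟨s, hs⟩ y
    obtain ⟨x, hx⟩ := hX.extend (s.image Prod.swap) (by
      intro p hp q hq
      obtain ⟨p', hp', rfl⟩ := Finset.mem_image.1 hp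
      obtain ⟨q', hq', rfl⟩ := Finset.mem_image.1 hq
      exact (hs p' hp' q' hq').symm) y
    have hx' : ∀ p ∈ s, dist x p.1 = dist y p.2 := fun p hp =>
      (hx p.swap (Finset.mem_image_of_mem _ hp)).symm
    refine ⟨⟨insert (x, y) s, ?_⟩, Finset.subset_insert _ _, x, Finset.mem_insert_self _ _⟩
    intro p hp q hq
    rcases Finset.mem_insert.1 hp with rfl | hp
    · rcases Finset.mem_insert.1 hq with rfl | hq
      · simp
      · exact hx' q hq
    · rcases Finset.mem_insert.1 hq with rfl | hq
      · simp only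
        rw [dist_comm p.1, dist_comm p.2]
        exact hx' p hp
      · exact hs p hp q hq
  let D : X ⊕ X → Order.Cofinal (PI X) := fun z => match z with
    | Sum.inl x =>
      { carrier := {p | ∃ y, (x, y) ∈ p.1}
        isCofinal := fun p => by
          obtain ⟨q, h1, h2⟩ := hext p x
          exact ⟨q, h2, h1⟩ }
    | Sum.inr y =>
      { carrier := {p | ∃ x, (x, y) ∈ p.1}
        isCofinal := fun p => by
          obtain ⟨q, h1, h2⟩ := hext' p y
          exact ⟨q, h2, h1⟩ }
  let p₀ : PI X := ⟨Finset.univ.image fun i => (a i, b i), by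
    intro p hp q hq
    obtain ⟨i, -, rfl⟩ := Finset.mem_image.1 hp
    obtain ⟨j, -, rfl⟩ := Finset.mem_image.1 hq
    exact hab i j⟩
  let s := Order.sequenceOfCofinals p₀ D
  have hmono : Monotone s := Order.sequenceOfCofinals.monotone p₀ D
  let I : X → X → Prop := fun x y => ∃ n, (x, y) ∈ (s n).1
  have hI : ∀ x y x' y', I x y → I x' y' → dist x x' = dist y y' := by
    rintro x y x' y' ⟨n, hn⟩ ⟨m, hm⟩
    have h1 : s n ≤ s (max n m) := hmono (le_max_left _ _)
    have h2 : s m ≤ s (max n m) := hmono (le_max_right _ _)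
    exact (s (max n m)).2 _ (h1 hn) _ (h2 hm)
  have hdom : ∀ x, ∃ y, I x y := by
    intro x
    obtain ⟨y, hy⟩ := Order.sequenceOfCofinals.encode_mem p₀ D (Sum.inl x)
    exact ⟨y, _, hy⟩
  have hran : ∀ y, ∃ x, I x y := by
    intro y
    obtain ⟨x, hx⟩ := Order.sequenceOfCofinals.encode_mem p₀ D (Sum.inr y)
    exact ⟨x, _, hx⟩
  choose f hf using hdom
  choose f' hf' using hran
  have h1 : ∀ x y, I x y → f x = y := by
    intro x y h
    have := hI _ _ _ _ (hf x) h
    rw [dist_self] at this
    exact dist_eq_zero.1 this.symm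
  have h2 : ∀ x, f' (f x) = x := by
    intro x
    have := hI _ _ _ _ (hf' (f x)) (hf x)
    rw [dist_self] at this
    exact dist_eq_zero.1 this
  have h3 : ∀ y, f (f' y) = y := fun y => h1 _ _ (hf' y)
  refine ⟨⟨⟨f, f', h2, h3⟩, Isometry.of_dist_eq fun x y =>
    (hI _ _ _ _ (hf x) (hf y)).symm⟩, fun i => ?_⟩
  refine h1 _ _ ⟨0, ?_⟩
  show (a i, b i) ∈ p₀.1
  exact Finset.mem_image_of_mem _ (Finset.mem_univ i)

end homog

end Run7.h658.QU
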