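import Mathlib

/-!
Iterated weak limits in reflexive spaces and the interlacing argument of Kalton.
-/

set_option autoImplicit false

open Filter Topology

namespace Run7.h658.QU

/-- The nonprincipal ultrafilter. -/
noncomputable abbrev U : Ultrafilter ℕ := Filter.hyperfilter ℕ

/-- Iterated quantifier along the ultrafilter. -/
def Q : ℕ → (List ℕ → Prop) → Prop
  | 0, P => P []
  | k + 1, P => ∀ᶠ n in (U : Filter ℕ), Q k fun l => P (n :: l)

/-- Iterated double quantifier along the ultrafilter. -/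
def DQ : ℕ → (List ℕ → List ℕ → Prop) → Prop
  | 0, P => P [] []
  | k + 1, P => ∀ᶠ n in (U : Filter ℕ), ∀ᶠ m in (U : Filter ℕ), DQ k fun l l' => P (n :: l) (m :: l')

theorem Q.mono {k : ℕ} {P P' : List ℕ → Prop} (h : Q k P) (hP : ∀ l, l.length = k → P l → P' l) :
    Q k P' := by
  induction k generalizing P P' with
  | zero => exact hP [] rfl h
  | succ k ih =>
    refine Eventually.mono h fun n hn => ih hn fun l hl hPl => hP _ ?_ hPl
    rw [List.length_cons, hl]

theorem Q.and {k : ℕ} {P P' : List ℕ → Prop} (h : Q k P) (h' : Q k P') :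
    Q k fun l => P l ∧ P' l := by
  induction k generalizing P P' with
  | zero => exact ⟨h, h'⟩
  | succ k ih => exact (Eventually.and h h').mono fun n hn => ih hn.1 hn.2

theorem Q.exists {k : ℕ} {P : List ℕ → Prop} (h : Q k P) : ∃ l, l.length = k ∧ P l := by
  induction k generalizing P with
  | zero => exact ⟨[], rfl, h⟩
  | succ k ih =>
    obtain ⟨n, hn⟩ := Eventually.exists h
    obtain ⟨l, hl, hP⟩ := ih hn
    exact ⟨n :: l, by rw [List.length_cons, hl], hP⟩

theorem Q.em (k : ℕ) (P : List ℕ → Prop) : Q k P ∨ Q k fun l => ¬ P l := by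
  induction k generalizing P with
  | zero => exact Classical.em _
  | succ k ih =>
    rcases U.eventually_or.1 (Eventually.of_forall fun n => ih fun l => P (n :: l)) with h | h
    · exact Or.inl h
    · exact Or.inr h

theorem eventually_gt (N : ℕ) : ∀ᶠ n in (U : Filter ℕ), N < n := by
  have h1 : ∀ᶠ n in cofinite, N < n := by
    rw [Nat.cofinite_eq_atTop]
    exact eventually_gt_atTop N
  exact Filter.hyperfilter_le_cofinite h1

theorem Q.gt (k N : ℕ) : Q k fun l => ∀ x ∈ l, N < x := by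
  induction k with
  | zero => simp [Q]
  | succ k ih =>
    refine (eventually_gt N).mono fun n hn => ih.mono fun l _ hl => ?_
    intro x hx
    rcases List.mem_cons.1 hx with rfl | hx
    · exact hn
    · exact hl x hx

theorem DQ.mono {k : ℕ} {P P' : List ℕ → List ℕ → Prop} (h : DQ k P)
    (hP : ∀ l l', l.length = k → l'.length = k → P l l' → P' l l') : DQ k P' := by
  induction k generalizing P P' with
  | zero => exact hP [] [] rfl rfl h
  | succ k ih =>
    refine Eventually.mono h fun n hn => Eventually.mono hn fun m hm =>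
      ih hm fun l l' hl hl' hPl => hP _ _ ?_ ?_ hPl
    · rw [List.length_cons, hl]
    · rw [List.length_cons, hl']

theorem DQ.and {k : ℕ} {P P' : List ℕ → List ℕ → Prop} (h : DQ k P) (h' : DQ k P') :
    DQ k fun l l' => P l l' ∧ P' l l' := by
  induction k generalizing P P' with
  | zero => exact ⟨h, h'⟩
  | succ k ih =>
    exact (Eventually.and h h').mono fun n hn => (Eventually.and hn.1 hn.2).mono
      fun m hm => ih hm.1 hm.2

theorem DQ.exists {k : ℕ} {P : List ℕ → List ℕ → Prop} (h : DQ k P) :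
    ∃ l l', l.length = k ∧ l'.length = k ∧ P l l' := by
  induction k generalizing P with
  | zero => exact ⟨[], [], rfl, rfl, h⟩
  | succ k ih =>
    obtain ⟨n, hn⟩ := Eventually.exists h
    obtain ⟨m, hm⟩ := Eventually.exists hn
    obtain ⟨l, l', hl, hl', hP⟩ := ih hm
    exact ⟨n :: l, m :: l', by rw [List.length_cons, hl], by rw [List.length_cons, hl'], hP⟩

/-- A property of the second variable. -/
theorem DQ.snd {k : ℕ} {P : List ℕ → Prop} (h : Q k P) : DQ k fun _ l' => P l' := by
  induction k generalizing P with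
  | zero => exact h
  | succ k ih => exact Eventually.of_forall fun _ => Eventually.mono h fun m hm => ih hm

/-- Strict interlacing `n₁ < m₁ < n₂ < m₂ < …`, all numbers being greater than `N`. -/
def Inter : ℕ → List ℕ → List ℕ → Prop
  | _, [], [] => True
  | N, n :: l, m :: l' => N < n ∧ n < m ∧ Inter m l l'
  | _, [], _ :: _ => False
  | _, _ :: _, [] => False

theorem DQ.inter (k N : ℕ) : DQ k (Inter N) := by
  induction k generalizing N with
  | zero => trivial
  | succ k ih =>
    exact (eventually_gt N).mono fun n hn => (eventually_gt n).mono fun m hm =>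
      (ih m).mono fun l l' _ _ h => ⟨hn, hm, h⟩

section limits

variable {E : Type} [NormedAddCommGroup E] [NormedSpace ℝ E]

/-- Iterated weak limits. -/
def WL : ℕ → (List ℕ → E) → E → Prop
  | 0, F, a => a = F []
  | k + 1, F, a => ∃ b : ℕ → E, (∀ n, WL k (fun l => F (n :: l)) (b n)) ∧
      ∀ φ : StrongDual ℝ E, Tendsto (fun n => φ (b n)) (U : Filter ℕ) (𝓝 (φ a))

/-- Iterated weak star limits. -/
def WS : ℕ → (List ℕ → StrongDual ℝ E) → StrongDual ℝ E → Prop
  | 0, F, a => a = F []
  | k + 1, F, a => ∃ b : ℕ → StrongDual ℝ E, (∀ n, WS k (fun l => F (n :: l)) (b n)) ∧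
      ∀ x : E, Tendsto (fun n => b n x) (U : Filter ℕ) (𝓝 (a x))

/-- Weak star limits of bounded sequences. -/
theorem exists_ws (M : ℝ) (b : ℕ → StrongDual ℝ E) (hb : ∀ n, ‖b n‖ ≤ M) :
    ∃ a : StrongDual ℝ E, ‖a‖ ≤ M ∧ ∀ x : E, Tendsto (fun n => b n x) (U : Filter ℕ) (𝓝 (a x)) := by
  have hc := WeakDual.isCompact_closedBall (𝕜 := ℝ) (E := E) (0 : StrongDual ℝ E) M
  have hmem : ∀ n, StrongDual.toWeakDual (b n) ∈
      (WeakDual.toStrongDual ⁻¹' Metric.closedBall (0 : StrongDual ℝ E) M) := by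
    intro n
    rw [Set.mem_preimage, mem_closedBall_zero_iff]
    exact hb n
  obtain ⟨a, ha, hlim⟩ := hc.ultrafilter_le_nhds' (U.map fun n => StrongDual.toWeakDual (b n))
    (by
      rw [Ultrafilter.mem_map]
      exact Filter.univ_mem' hmem)
  rw [Set.mem_preimage, mem_closedBall_zero_iff] at ha
  refine ⟨WeakDual.toStrongDual a, ha, fun x => ?_⟩
  have h1 : Tendsto (fun n => StrongDual.toWeakDual (b n)) (U : Filter ℕ) (𝓝 a) := hlim
  exact ((WeakDual.eval_continuous x).tendsto a).comp h1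

/-- Weak limits of bounded sequences in reflexive spaces. -/
theorem exists_wl (hrefl : Function.Surjective (NormedSpace.inclusionInDoubleDual ℝ E)) (M : ℝ)
    (b : ℕ → E) (hb : ∀ n, ‖b n‖ ≤ M) :
    ∃ a : E, ‖a‖ ≤ M ∧ ∀ φ : StrongDual ℝ E,
      Tendsto (fun n => φ (b n)) (U : Filter ℕ) (𝓝 (φ a)) := by
  obtain ⟨a, ha, hlim⟩ := exists_ws (E := StrongDual ℝ E) M
    (fun n => NormedSpace.inclusionInDoubleDual ℝ E (b n))
    (fun n => (NormedSpace.double_dual_bound ℝ E (b n)).trans (hb n))
  obtain ⟨x, rfl⟩ := hrefl a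
  refine ⟨x, ?_, fun φ => hlim φ⟩
  have h1 := (NormedSpace.inclusionInDoubleDualLi (E := E) ℝ).norm_map x
  have h2 : ‖(NormedSpace.inclusionInDoubleDualLi (E := E) ℝ) x‖ =
    ‖NormedSpace.inclusionInDoubleDual ℝ E x‖ := rfl
  rw [← h1, h2]
  exact ha

theorem exists_WL (hrefl : Function.Surjective (NormedSpace.inclusionInDoubleDual ℝ E)) (k : ℕ)
    (M : ℝ) (F : List ℕ → E) (hF : ∀ l, l.length = k → ‖F l‖ ≤ M) : ∃ a, ‖a‖ ≤ M ∧ WL k F a := by
  induction k generalizing F with
  | zero => exact ⟨F [], hF [] rfl, rfl⟩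
  | succ k ih =>
    choose b hb hW using fun n => ih (fun l => F (n :: l))
      (fun l hl => hF _ (by rw [List.length_cons, hl]))
    obtain ⟨a, ha, hlim⟩ := exists_wl hrefl M b hb
    exact ⟨a, ha, b, hW, hlim⟩

theorem exists_WS (k : ℕ) (M : ℝ) (F : List ℕ → StrongDual ℝ E)
    (hF : ∀ l, l.length = k → ‖F l‖ ≤ M) : ∃ a, ‖a‖ ≤ M ∧ WS k F a := by
  induction k generalizing F with
  | zero => exact ⟨F [], hF [] rfl, rfl⟩
  | succ k ih =>
    choose b hb hW using fun n => ih (fun l => F (n :: l))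
      (fun l hl => hF _ (by rw [List.length_cons, hl]))
    obtain ⟨a, ha, hlim⟩ := exists_ws M b hb
    exact ⟨a, ha, b, hW, hlim⟩

/-- The double limits of the pairing. -/
theorem pairing {k : ℕ} {F : List ℕ → E} {a : E} {g : List ℕ → StrongDual ℝ E}
    {b : StrongDual ℝ E} (hF : WL k F a) (hg : WS k g b) (ε : ℝ) (hε : 0 < ε) :
    DQ k fun l l' => |g l' (F l) - b a| < ε := by
  induction k generalizing F a g b ε with
  | zero =>
    subst hF
    subst hg
    simp only [DQ, sub_self, abs_zero]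
    exact hε
  | succ k ih =>
    obtain ⟨x, hx, hxa⟩ := hF
    obtain ⟨y, hy, hyb⟩ := hg
    have h1 : ∀ᶠ n in (U : Filter ℕ), |b (x n) - b a| < ε / 3 := by
      have := (Metric.tendsto_nhds.1 (hxa b)) (ε / 3) (by positivity)
      simpa [Real.dist_eq] using this
    refine h1.mono fun n hn => ?_
    have h2 : ∀ᶠ m in (U : Filter ℕ), |y m (x n) - b (x n)| < ε / 3 := by
      have := (Metric.tendsto_nhds.1 (hyb (x n))) (ε / 3) (by positivity)
      simpa [Real.dist_eq] using this
    refine h2.mono fun m hm => ?_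
    refine (ih (hx n) (hy m) (ε / 3) (by positivity)).mono fun l l' _ _ h => ?_
    have e1 : g (m :: l') (F (n :: l)) - b a = (g (m :: l') (F (n :: l)) - y m (x n)) +
      (y m (x n) - b (x n)) + (b (x n) - b a) := by ring
    show |g (m :: l') (F (n :: l)) - b a| < ε
    rw [e1]
    refine (abs_add_le _ _).trans_lt ?_
    have := abs_add_le (g (m :: l') (F (n :: l)) - y m (x n)) (y m (x n) - b (x n))
    linarith

theorem WL.sub {k : ℕ} {F : List ℕ → E} {a : E} (hF : WL k F a) (c : E) :
    WL k (fun l => F l - c) (a - c) := by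
  induction k generalizing F a with
  | zero =>
    subst hF
    rfl
  | succ k ih =>
    obtain ⟨x, hx, hxa⟩ := hF
    refine ⟨fun n => x n - c, fun n => ih (hx n), fun φ => ?_⟩
    simp only [map_sub]
    exact (hxa φ).sub_const _

/-- **Kalton's interlacing argument.** A bounded map from the `k`-subsets into a reflexive space
which moves interlaced subsets by at most `L` is concentrated, up to `L`, at a point. -/
theorem kalton (hrefl : Function.Surjective (NormedSpace.inclusionInDoubleDual ℝ E)) (k : ℕ)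
    (M : ℝ) (F : List ℕ → E) (hF : ∀ l, l.length = k → ‖F l‖ ≤ M) (L : ℝ)
    (hL : ∀ l l', l.length = k → l'.length = k → Inter 0 l l' → ‖F l - F l'‖ ≤ L) (ε : ℝ)
    (hε : 0 < ε) : ∃ a : E, Q k fun l => ‖F l - a‖ ≤ L + ε := by
  obtain ⟨a, -, ha⟩ := exists_WL hrefl k M F hF
  refine ⟨a, ?_⟩
  rcases Q.em k fun l => ‖F l - a‖ ≤ L + ε with h | h
  · exact h
  · exfalso
    choose g hg1 hg2 using fun x : E => exists_dual_vector'' ℝ x
    obtain ⟨b, -, hb⟩ := exists_WS k 1 (fun l => g (F l - a)) (fun l _ => hg1 _)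
    have h1 := pairing (ha.sub a) hb ε hε
    rw [sub_self, map_zero] at h1
    obtain ⟨l, l', hl, hl', ⟨h3, h4⟩, h5⟩ := ((h1.and (DQ.snd h)).and (DQ.inter k 0)).exists
    have h6 : g (F l' - a) (F l' - a) = ‖F l' - a‖ := by
      have := hg2 (F l' - a)
      exact this
    have h7 : g (F l' - a) (F l' - F l) ≤ ‖F l' - F l‖ :=
      (le_abs_self _).trans (((g (F l' - a)).le_opNorm _).trans (by
        calc ‖g (F l' - a)‖ * ‖F l' - F l‖ ≤ 1 * ‖F l' - F l‖ :=
              mul_le_mul_of_nonneg_right (hg1 _) (norm_nonneg _)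
          _ = _ := one_mul _))
    have h8 : g (F l' - a) (F l' - a) = g (F l' - a) (F l' - F l) + g (F l' - a) (F l - a) := by
      rw [← map_add]
      congr 1
      abel
    have h9 := hL l l' hl hl' h5
    rw [norm_sub_rev] at h9
    have h10 := (abs_lt.1 h3).2
    rw [sub_zero] at h10
    apply h4
    rw [← h6, h8]
    linarith

/-- Two separated subsets with nearby images. -/
theorem kalton' (hrefl : Function.Surjective (NormedSpace.inclusionInDoubleDual ℝ E)) (k : ℕ)
    (M : ℝ) (F : List ℕ → E) (hF : ∀ l, l.length = k → ‖F l‖ ≤ M) (L : ℝ)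
    (hL : ∀ l l', l.length = k → l'.length = k → Inter 0 l l' → ‖F l - F l'‖ ≤ L) :
    ∃ l l', l.length = k ∧ l'.length = k ∧ (∃ N, (∀ x ∈ l, x ≤ N) ∧ ∀ x ∈ l', N < x) ∧
      ‖F l - F l'‖ ≤ 2 * L + 1 := by
  obtain ⟨a, ha⟩ := kalton hrefl k M F hF L hL (1 / 2) (by norm_num)
  obtain ⟨l, hl, h1⟩ := ha.exists
  obtain ⟨l', hl', h2, h3⟩ := (ha.and (Q.gt k (l.foldr max 0))).exists
  refine ⟨l, l', hl, hl', ⟨l.foldr max 0, fun x hx => ?_, h3⟩, ?_⟩
  · exact List.le_max_of_le' 0 hx le_rfl
  · calc ‖F l - F l'‖ = ‖(F l - a) - (F l' - a)‖ := by congr 1; abel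
      _ ≤ ‖F l - a‖ + ‖F l' - a‖ := norm_sub_le _ _
      _ ≤ 2 * L + 1 := by linarith

end limits

end Run7.h658.QU
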