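import Pool.Agent.Run7.h658.QU.RN

/-!
A fixed point theorem (Ryll-Nardzewski) for groups of affine isometries of a reflexive real Banach
space with a bounded orbit.
-/

set_option autoImplicit false

open Set Topology

namespace Run7.h658.QU

variable {E : Type} [NormedAddCommGroup E] [NormedSpace ℝ E]

theorem isClosed_weak {K : Set E} (hc : Convex ℝ K) (hcl : IsClosed K) :
    IsClosed (toWeakSpace ℝ E '' K) := by
  have h1 := hc.toWeakSpace_closure ℝ
  rw [hcl.closure_eq] at h1
  rw [h1]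
  exact isClosed_closure

/-- Closed bounded convex sets of a reflexive space are weakly compact. -/
theorem isCompact_weak (hrefl : Function.Surjective (NormedSpace.inclusionInDoubleDual ℝ E))
    {K : Set E} (hc : Convex ℝ K) (hcl : IsClosed K) (hb : Bornology.IsBounded K) :
    IsCompact (toWeakSpace ℝ E '' K) := by
  rw [← (isClosed_weak hc hcl).closure_eq]
  refine NormedSpace.isCompact_closure_of_isBounded ℝ E _ ?_ ?_
  · rwa [Set.preimage_image_eq _ (toWeakSpace ℝ E).injective]
  · intro x _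
    obtain ⟨y, hy⟩ := hrefl (WeakDual.toStrongDual x)
    refine ⟨toWeakSpace ℝ E y, ?_⟩
    refine DFunLike.ext _ _ fun φ => ?_
    exact DFunLike.congr_fun hy φ

/-- The closed convex hull of an orbit. -/
theorem hull_invariant {H : Type} [Group H] (α : H →* (E ≃ᵃⁱ[ℝ] E)) (v : E) (h : H) (x : E)
    (hx : x ∈ closure (convexHull ℝ (range fun g : H => α g v))) :
    α h x ∈ closure (convexHull ℝ (range fun g : H => α g v)) := by
  have h1 : (α h) '' (convexHull ℝ (range fun g : H => α g v)) =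
      convexHull ℝ ((α h) '' (range fun g : H => α g v)) :=
    (α h).toAffineEquiv.toAffineMap.image_convexHull _
  have h2 : (α h) '' (range fun g : H => α g v) ⊆ range fun g : H => α g v := by
    rintro _ ⟨_, ⟨g, rfl⟩, rfl⟩
    refine ⟨h * g, ?_⟩
    simp only [map_mul]
    rfl
  have h3 : α h x ∈ (α h) '' closure (convexHull ℝ (range fun g : H => α g v)) := ⟨x, hx, rfl⟩
  have h4 := image_closure_subset_closure_image (α h).continuous h3
  rw [h1] at h4
  exact closure_mono (convexHull_mono h2) h4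

/-- The fixed point theorem for countable groups. -/
theorem fixed_countable (hrefl : Function.Surjective (NormedSpace.inclusionInDoubleDual ℝ E))
    {H : Type} [Group H] [Countable H] (α : H →* (E ≃ᵃⁱ[ℝ] E)) (K₀ : Set E) (hn : K₀.Nonempty)
    (hcl : IsClosed K₀) (hc : Convex ℝ K₀) (hb : Bornology.IsBounded K₀)
    (hinv : ∀ h, ∀ v ∈ K₀, α h v ∈ K₀) : ∃ v ∈ K₀, ∀ h, α h v = v := by
  classical
  let S : Set (Set E) := {K | K.Nonempty ∧ IsClosed K ∧ Convex ℝ K ∧ K ⊆ K₀ ∧
    ∀ h, ∀ v ∈ K, α h v ∈ K}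
  obtain ⟨K, -, hKm⟩ : ∃ K, K ⊆ K₀ ∧ Minimal (· ∈ S) K := by
    refine zorn_superset_nonempty S (fun c hcS hchain hcn => ?_) K₀ ⟨hn, hcl, hc, subset_rfl, hinv⟩
    refine ⟨⋂₀ c, ⟨?_, isClosed_sInter fun t ht => (hcS ht).2.1,
      convex_sInter fun t ht => (hcS ht).2.2.1, ?_, ?_⟩, fun t ht => sInter_subset_of_mem ht⟩
    · have : Nonempty c := hcn.to_subtype
      have h1 : (⋂ t : c, toWeakSpace ℝ E '' (t : Set E)).Nonempty := by
        refine IsCompact.nonempty_iInter_of_directed_nonempty_isCompact_isClosed _ ?_ ?_ ?_ ?_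
        · intro s t
          rcases hchain.total s.2 t.2 with h | h
          · exact ⟨s, subset_rfl, image_mono h⟩
          · exact ⟨t, image_mono h, subset_rfl⟩
        · intro t
          exact ((hcS t.2).1).image _
        · intro t
          exact isCompact_weak hrefl (hcS t.2).2.2.1 (hcS t.2).2.1 (hb.subset (hcS t.2).2.2.2.1)
        · intro t
          exact isClosed_weak (hcS t.2).2.2.1 (hcS t.2).2.1
      obtain ⟨x, hx⟩ := h1
      refine ⟨(toWeakSpace ℝ E).symm x, ?_⟩
      rw [mem_sInter]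
      intro t ht
      rw [mem_iInter] at hx
      obtain ⟨y, hy, rfl⟩ := hx ⟨t, ht⟩
      simpa using hy
    · obtain ⟨t, ht⟩ := hcn
      exact (sInter_subset_of_mem ht).trans (hcS ht).2.2.2.1
    · intro h v hv
      rw [mem_sInter] at hv ⊢
      exact fun t ht => (hcS ht).2.2.2.2 h v (hv t ht)
  obtain ⟨⟨hKn, hKcl, hKc, hKK, hKinv⟩, hmin⟩ := hKm
  have hKb : Bornology.IsBounded K := hb.subset hKK
  -- minimality
  have horb : ∀ v ∈ K, K ⊆ closure (convexHull ℝ (range fun g : H => α g v)) := by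
    intro v hv
    refine hmin ⟨⟨v, subset_closure (subset_convexHull ℝ _ ⟨1, by simp⟩)⟩, isClosed_closure,
      (convex_convexHull ℝ _).closure, ?_, fun h x hx => hull_invariant α v h x hx⟩ ?_
    · refine (closure_minimal (convexHull_min ?_ hKc) hKcl).trans hKK
      rintro _ ⟨g, rfl⟩
      exact hKinv g v hv
    · refine closure_minimal (convexHull_min ?_ hKc) hKcl
      rintro _ ⟨g, rfl⟩
      exact hKinv g v hv
  obtain ⟨v₀, hv₀⟩ := hKn
  refine ⟨v₀, hKK hv₀, fun h₀ => ?_⟩
  by_contra hne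
  -- two distinct points
  set y := v₀ with hy
  set z := α h₀ v₀ with hz
  have hyK : y ∈ K := hv₀
  have hzK : z ∈ K := hKinv h₀ _ hv₀
  have hyz : 0 < ‖y - z‖ := norm_pos_iff.2 (sub_ne_zero.2 fun h => hne h.symm)
  -- separability
  have hsep : TopologicalSpace.IsSeparable K := by
    refine TopologicalSpace.IsSeparable.mono ?_ (horb v₀ hv₀)
    refine TopologicalSpace.IsSeparable.closure ?_
    refine TopologicalSpace.IsSeparable.mono
      ((countable_range fun g : H => α g v₀).isSeparable.span (R := ℝ))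
      (convexHull_min Submodule.subset_span (Submodule.convex _))
  obtain ⟨c, hcc, hcK⟩ := hsep
  have hcn : c.Nonempty := by
    by_contra h0
    rw [not_nonempty_iff_eq_empty] at h0
    rw [h0, closure_empty] at hcK
    exact hcK hv₀
  obtain ⟨D, rfl⟩ := hcc.exists_eq_range hcn
  have hD : ∀ x ∈ toWeakSpace ℝ E '' K, ∀ δ : ℝ, 0 < δ →
      ∃ n, ‖(toWeakSpace ℝ E).symm x - D n‖ ≤ δ := by
    rintro _ ⟨x, hx, rfl⟩ δ hδ
    obtain ⟨_, ⟨n, rfl⟩, hn⟩ := Metric.mem_closure_iff.1 (hcK hx) δ hδ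
    refine ⟨n, ?_⟩
    rw [LinearEquiv.symm_apply_apply, ← dist_eq_norm]
    exact hn.le
  obtain ⟨M, hM⟩ := Metric.isBounded_iff.1 hKb
  obtain ⟨φ, u, ⟨_, ⟨x₁, hx₁, rfl⟩, hux₁⟩, hsmall⟩ := exists_slice
    (isCompact_weak hrefl hKc hKcl hKb) (hKc.linear_image (toWeakSpace ℝ E).toLinearMap)
    ⟨_, ⟨v₀, hv₀, rfl⟩⟩ D hD M
    (by
      rintro _ ⟨x, hx, rfl⟩ _ ⟨x', hx', rfl⟩
      rw [LinearEquiv.symm_apply_apply, LinearEquiv.symm_apply_apply, ← dist_eq_norm]
      exact hM hx hx') (‖y - z‖ / 4) (by positivity)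
  -- the functional on `E`
  let ψ : StrongDual ℝ E := φ.comp (toWeakSpaceCLM ℝ E)
  have hψ : ∀ x, ψ x = φ (toWeakSpace ℝ E x) := fun x => rfl
  let m : E := (1 / 2 : ℝ) • y + (1 / 2 : ℝ) • z
  have hmK : m ∈ K := hKc hyK hzK (by norm_num) (by norm_num) (by norm_num)
  obtain ⟨g, hg⟩ : ∃ g : H, u < ψ (α g m) := by
    by_contra hcon
    push Not at hcon
    have h1 : closure (convexHull ℝ (range fun g : H => α g m)) ⊆ {x | ψ x ≤ u} := by
      refine closure_minimal (convexHull_min ?_ (convex_halfSpace_le ψ.toLinearMap.isLinear _))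
        (isClosed_le ψ.continuous continuous_const)
      rintro _ ⟨g, rfl⟩
      exact hcon g
    have h2 : ψ x₁ ≤ u := h1 (horb m hmK hx₁)
    rw [hψ] at h2
    exact not_lt.2 h2 hux₁
  have hgm : α g m = (1 / 2 : ℝ) • α g y + (1 / 2 : ℝ) • α g z := by
    have h1 := Convex.combo_affine_apply (f := (α g).toAffineEquiv.toAffineMap) (x := y) (y := z)
      (a := (1 / 2 : ℝ)) (b := 1 / 2) (by norm_num)
    exact h1
  have hdist : ∀ a b : E, ‖α g a - α g b‖ = ‖a - b‖ := fun a b => by
    rw [← dist_eq_norm, ← dist_eq_norm]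
    exact (α g).isometry.dist_eq a b
  have hor : u < ψ (α g y) ∨ u < ψ (α g z) := by
    by_contra hcon
    push Not at hcon
    rw [hgm, map_add, map_smul, map_smul, smul_eq_mul, smul_eq_mul] at hg
    linarith [hcon.1, hcon.2]
  have hfin : ∀ t ∈ K, ‖m - t‖ = ‖y - z‖ / 2 → ¬ u < ψ (α g t) := by
    intro t ht hmt hut
    have h1 := hsmall _ ⟨_, hKinv g m hmK, rfl⟩ _ ⟨_, hKinv g t ht, rfl⟩ hg hut
    rw [LinearEquiv.symm_apply_apply, LinearEquiv.symm_apply_apply, hdist, hmt] at h1
    linarith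
  rcases hor with h | h
  · refine hfin y hyK ?_ h
    have e1 : m - y = (-(1 / 2) : ℝ) • (y - z) := by
      simp only [m]
      module
    rw [e1, norm_smul]
    norm_num
    ring
  · refine hfin z hzK ?_ h
    have e1 : m - z = ((1 / 2) : ℝ) • (y - z) := by
      simp only [m]
      module
    rw [e1, norm_smul]
    norm_num
    ring

/-- **Ryll-Nardzewski.** A group of affine isometries of a reflexive space with a bounded orbit has
a fixed point. -/
theorem exists_fixed (hrefl : Function.Surjective (NormedSpace.inclusionInDoubleDual ℝ E))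
    {G : Type} [Group G] (α : G →* (E ≃ᵃⁱ[ℝ] E)) (C : ℝ) (hC : ∀ g, ‖α g 0‖ ≤ C) :
    ∃ v, ∀ g, α g v = v := by
  classical
  let K₀ : Set E := closure (convexHull ℝ (range fun g : G => α g 0))
  have hn : K₀.Nonempty := ⟨0, subset_closure (subset_convexHull ℝ _ ⟨1, by simp⟩)⟩
  have hcl : IsClosed K₀ := isClosed_closure
  have hc : Convex ℝ K₀ := (convex_convexHull ℝ _).closure
  have hb : Bornology.IsBounded K₀ := by
    refine (Metric.isBounded_closedBall (x := (0 : E)) (r := C)).subset ?_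
    refine closure_minimal (convexHull_min ?_ (convex_closedBall _ _)) Metric.isClosed_closedBall
    rintro _ ⟨g, rfl⟩
    rw [mem_closedBall_zero_iff]
    exact hC g
  let F : G → Set E := fun g => {v | v ∈ K₀ ∧ α g v = v}
  have hFcl : ∀ g, IsClosed (F g) := fun g =>
    hcl.inter (isClosed_eq (α g).continuous continuous_id)
  have hFc : ∀ g, Convex ℝ (F g) := by
    intro g x hx y hy a b ha hb hab
    refine ⟨hc hx.1 hy.1 ha hb hab, ?_⟩
    have h1 := Convex.combo_affine_apply (f := (α g).toAffineEquiv.toAffineMap) (x := x) (y := y)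
      (a := a) (b := b) hab
    have h2 : α g (a • x + b • y) = a • α g x + b • α g y := h1
    rw [h2, hx.2, hy.2]
  have hmain : (toWeakSpace ℝ E '' K₀ ∩ ⋂ g, toWeakSpace ℝ E '' F g).Nonempty := by
    refine IsCompact.inter_iInter_nonempty (isCompact_weak hrefl hc hcl hb) _
      (fun g => isClosed_weak (hFc g) (hFcl g)) (fun s => ?_)
    have : Countable (FreeGroup s) := inferInstanceAs (Countable (Quot _))
    let f : FreeGroup s →* G := FreeGroup.lift fun x => (x : G)
    obtain ⟨v, hv, hfix⟩ := fixed_countable hrefl (α.comp f) K₀ hn hcl hc hb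
      (fun h v hv => hull_invariant α 0 (f h) v hv)
    refine ⟨toWeakSpace ℝ E v, ⟨v, hv, rfl⟩, ?_⟩
    rw [mem_iInter₂]
    intro g hg
    refine ⟨v, ⟨hv, ?_⟩, rfl⟩
    have h1 := hfix (FreeGroup.of ⟨g, hg⟩)
    simpa [f] using h1
  obtain ⟨x, -, hx⟩ := hmain
  refine ⟨(toWeakSpace ℝ E).symm x, fun g => ?_⟩
  rw [mem_iInter] at hx
  obtain ⟨v, hv, rfl⟩ := hx g
  rw [LinearEquiv.symm_apply_apply]
  exact hv.2

end Run7.h658.QU
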