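import Pool.Agent.Run7.h658.QU.Ext
import Pool.Agent.Run7.h658.QU.Dist
import Pool.Agent.Run7.h658.QU.RN2

/-!
Every continuous affine isometric action of the isometry group of the rational Urysohn space on a
reflexive real Banach space has a fixed point.
-/

set_option autoImplicit false

namespace Run7.h658.QU

section length

variable {E : Type} [NormedAddCommGroup E] [NormedSpace ℝ E] {G : Type} [Group G]
  (α : G →* (E ≃ᵃⁱ[ℝ] E))

theorem norm_sub_orbit (g h : G) : ‖α g 0 - α h 0‖ = ‖α (g⁻¹ * h) 0‖ := by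
  have h1 : α h 0 = α g (α (g⁻¹ * h) 0) := by
    have : h = g * (g⁻¹ * h) := by group
    conv_lhs => rw [this, map_mul]
    rfl
  rw [h1, ← dist_eq_norm, (α g).isometry.dist_eq, dist_zero_left]

theorem length_mul (g h : G) : ‖α (g * h) 0‖ ≤ ‖α g 0‖ + ‖α h 0‖ := by
  have h1 : α (g * h) 0 = α g (α h 0) := by
    rw [map_mul]
    rfl
  have h2 : ‖α (g * h) 0 - α g 0‖ = ‖α h 0‖ := by
    rw [h1, ← dist_eq_norm, (α g).isometry.dist_eq, dist_zero_right]
  calc ‖α (g * h) 0‖ = ‖α g 0 + (α (g * h) 0 - α g 0)‖ := by congr 1; abel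
    _ ≤ ‖α g 0‖ + ‖α (g * h) 0 - α g 0‖ := norm_add_le _ _
    _ = _ := by rw [h2]

theorem length_inv (g : G) : ‖α g⁻¹ 0‖ = ‖α g 0‖ := by
  have h1 := norm_sub_orbit α g 1
  rw [map_one, mul_one] at h1
  rw [← h1]
  have : (1 : E ≃ᵃⁱ[ℝ] E) 0 = 0 := rfl
  rw [this, sub_zero]

end length

variable {X : Type} [MetricSpace X] {E : Type} [NormedAddCommGroup E] [NormedSpace ℝ E]

/-- Elements with the same relative position of `A` and its image have nearly the same length. -/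
theorem same_type (hX : IsQU X) (α : (X ≃ᵢ X) →* (E ≃ᵃⁱ[ℝ] E)) (A : Finset X)
    (hA : ∀ h : X ≃ᵢ X, (∀ x ∈ A, h x = x) → ‖α h 0‖ < 1) (g h : X ≃ᵢ X)
    (hgh : ∀ a ∈ A, ∀ b ∈ A, dist a (g b) = dist a (h b)) : ‖α h 0‖ ≤ ‖α g 0‖ + 2 := by
  obtain ⟨k, hk⟩ := hX.homogeneous (ι := A ⊕ A)
    (Sum.elim (fun a => (a : X)) (fun b => g b)) (Sum.elim (fun a => (a : X)) (fun b => h b))
    (by
      rintro (a | a) (b | b)
      · rfl
      · exact hgh a a.2 b b.2
      · show dist (g a) (b : X) = dist (h a) (b : X)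
        rw [dist_comm, dist_comm _ (b : X)]
        exact hgh b b.2 a a.2
      · show dist (g a) (g b) = dist (h a) (h b)
        rw [g.dist_eq, h.dist_eq])
  have h1 : ‖α k 0‖ < 1 := hA k fun x hx => hk (Sum.inl ⟨x, hx⟩)
  have h2 : ‖α (h⁻¹ * k * g) 0‖ < 1 := hA _ fun x hx => by
    have h3 : k (g x) = h x := hk (Sum.inr ⟨x, hx⟩)
    show h.symm (k (g x)) = x
    rw [h3, IsometryEquiv.symm_apply_apply]
  have h3 : h = k * g * (h⁻¹ * k * g)⁻¹ := by group
  have h4 := length_mul α (k * g) (h⁻¹ * k * g)⁻¹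
  rw [← h3, length_inv] at h4
  have h5 := length_mul α k g
  linarith

theorem bounded_orbit (hX : IsQU X)
    (hrefl : Function.Surjective (NormedSpace.inclusionInDoubleDual ℝ E))
    (α : (X ≃ᵢ X) →* (E ≃ᵃⁱ[ℝ] E)) (A : Finset X)
    (hA : ∀ h : X ≃ᵢ X, (∀ x ∈ A, h x = x) → ‖α h 0‖ < 1) : ∃ C : ℝ, ∀ g, ‖α g 0‖ ≤ C := by
  classical
  have hct : Countable X := hX.countable
  -- the size of `A`
  obtain ⟨ρ, hρ1, hρ⟩ : ∃ ρ : ℕ, 0 < ρ ∧ ∀ a ∈ A, ∀ b ∈ A, dist a b ≤ ρ := by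
    obtain ⟨n, hn⟩ := exists_nat_ge (∑ a ∈ A, ∑ b ∈ A, dist a b)
    refine ⟨n + 1, Nat.succ_pos _, fun a ha b hb => ?_⟩
    have h1 : dist a b ≤ ∑ b ∈ A, dist a b :=
      Finset.single_le_sum (f := fun b => dist a b) (fun _ _ => dist_nonneg) hb
    have h2 : ∑ b ∈ A, dist a b ≤ ∑ a ∈ A, ∑ b ∈ A, dist a b :=
      Finset.single_le_sum (f := fun a => ∑ b ∈ A, dist a b)
        (fun _ _ => Finset.sum_nonneg fun _ _ => dist_nonneg) ha
    push_cast
    linarith
  -- the embedding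
  choose q hq using hX.rational
  obtain ⟨J', hJ'⟩ := hX.embed (Y := X × List ℕ)
    (fun y z => max (q y.1 z.1) ((ρ : ℚ) * (lam y.2 z.2 : ℚ)))
    (fun y => by
      have h1 : q y.1 y.1 = 0 := by
        have := hq y.1 y.1
        rw [dist_self] at this
        exact_mod_cast this.symm
      rw [h1, lam_self]
      simp)
    (fun y z => by
      have h1 : q y.1 z.1 = q z.1 y.1 := by
        have := (hq y.1 z.1).symm.trans ((dist_comm _ _).trans (hq z.1 y.1))
        exact_mod_cast this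
      rw [h1, lam_symm])
    (fun x y z => by
      have h1 : q x.1 z.1 ≤ q x.1 y.1 + q y.1 z.1 := by
        have := dist_triangle x.1 y.1 z.1
        rw [hq, hq, hq] at this
        exact_mod_cast this
      have h2 : ((lam x.2 z.2 : ℕ) : ℚ) ≤ lam x.2 y.2 + lam y.2 z.2 := by
        exact_mod_cast lam_tri x.2 y.2 z.2
      have h3 : (ρ : ℚ) * lam x.2 z.2 ≤ ρ * lam x.2 y.2 + ρ * lam y.2 z.2 := by
        rw [← mul_add]
        exact mul_le_mul_of_nonneg_left h2 (Nat.cast_nonneg _)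
      refine max_le ?_ ?_
      · exact h1.trans (add_le_add (le_max_left _ _) (le_max_left _ _))
      · exact h3.trans (add_le_add (le_max_right _ _) (le_max_right _ _)))
  let J : X → List ℕ → X := fun x l => J' (x, l)
  have hJ : ∀ x y l l', dist (J x l) (J y l') = max (dist x y) ((ρ : ℝ) * (lam l l' : ℝ)) := by
    intro x y l l'
    have := hJ' (x, l) (y, l')
    rw [show dist (J x l) (J y l') = dist (J' (x, l)) (J' (y, l')) from rfl, this, hq x y]
    push_cast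
    rfl
  have hJs : ∀ x y l, dist (J x l) (J y l) = dist x y := by
    intro x y l
    rw [hJ, lam_self, Nat.cast_zero, mul_zero]
    exact max_eq_left dist_nonneg
  have hJA : ∀ a ∈ A, ∀ b ∈ A, ∀ l l', 1 ≤ lam l l' → dist (J a l) (J b l') = ρ * lam l l' := by
    intro a ha b hb l l' h1
    rw [hJ]
    refine max_eq_right ((hρ a ha b hb).trans ?_)
    have h2 : (1 : ℝ) ≤ lam l l' := by exact_mod_cast h1
    have h3 : (0 : ℝ) ≤ ρ := Nat.cast_nonneg _
    nlinarith
  -- the elements of the group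
  have hg : ∀ l : List ℕ, ∃ g : X ≃ᵢ X, ∀ a : A, g a = J a l := fun l =>
    hX.homogeneous (ι := A) (fun a => (a : X)) (fun a => J a l) (fun a b => (hJs a b l).symm)
  choose γ hγ using hg
  have hpos : ∀ l l' : List ℕ, 1 ≤ lam l l' → ∀ a ∈ A, ∀ b ∈ A,
      dist a (((γ l)⁻¹ * γ l' : X ≃ᵢ X) b) = ρ * lam l l' := by
    intro l l' h1 a ha b hb
    have h2 : dist a (((γ l)⁻¹ * γ l' : X ≃ᵢ X) b) = dist (γ l a) (γ l' b) := by
      rw [← (γ l).dist_eq a]
      congr 1
      exact (γ l).apply_symm_apply _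
    rw [h2, hγ l ⟨a, ha⟩, hγ l' ⟨b, hb⟩]
    exact hJA a ha b hb l l' h1
  -- the Lipschitz constant
  let L : ℝ := ‖α ((γ [1])⁻¹ * γ [2]) 0‖ + 2
  have hL0 : 0 ≤ L := by positivity
  have h12 : lam [1] [2] = 1 := lam_inter (N := 0) (by simp [Inter]) (by simp)
  have key : ∀ k : ℕ, 1 ≤ k → ∀ h : X ≃ᵢ X, (∀ a ∈ A, ∀ b ∈ A, dist a (h b) = ρ * k) →
      ‖α h 0‖ ≤ 2 * L + 3 := by
    intro k hk h hh
    let F : List ℕ → E := fun l => α (γ l) 0
    have hF : ∀ l : List ℕ, l.length = k → ‖F l‖ ≤ ‖F []‖ + (‖α h 0‖ + 2) := by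
      intro l hl
      have h1 : lam [] l = k := (lam_nil l).trans hl
      have h2 := same_type hX α A hA h ((γ [])⁻¹ * γ l) (fun a ha b hb => by
        rw [hh a ha b hb, hpos [] l (by omega) a ha b hb, h1])
      rw [← norm_sub_orbit] at h2
      calc ‖F l‖ = ‖F [] - (F [] - F l)‖ := by congr 1; abel
        _ ≤ ‖F []‖ + ‖F [] - F l‖ := norm_sub_le _ _
        _ ≤ _ := by
          simp only [F]
          linarith
    obtain ⟨l, l', hl, hl', ⟨N, hN, hN'⟩, hll⟩ := kalton' hrefl k _ F hF L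
      (fun l l' hl hl' hi => by
        have hne : l ≠ [] := by
          rintro rfl
          simp at hl
          omega
        have h1 := lam_inter hi hne
        have h2 := same_type hX α A hA ((γ [1])⁻¹ * γ [2]) ((γ l)⁻¹ * γ l') (fun a ha b hb => by
          rw [hpos [1] [2] (by omega) a ha b hb, hpos l l' (by omega) a ha b hb, h1, h12])
        rw [← norm_sub_orbit α (γ l)] at h2
        exact h2)
    have h1 := lam_sep hl hl' hN hN'
    have h2 := same_type hX α A hA ((γ l)⁻¹ * γ l') h (fun a ha b hb => by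
      rw [hpos l l' (by omega) a ha b hb, h1, hh a ha b hb])
    rw [← norm_sub_orbit] at h2
    have h3 : ‖F l - F l'‖ = ‖α (γ l) 0 - α (γ l') 0‖ := rfl
    rw [h3] at hll
    linarith
  refine ⟨2 * (2 * L + 3), fun g => ?_⟩
  -- the points of `A` and of its image
  let S : Finset X := A ∪ A.image g
  obtain ⟨k, hk1, hk⟩ : ∃ k : ℕ, 1 ≤ k ∧ ∀ a ∈ S, ∀ b ∈ S, dist a b ≤ ρ * k := by
    obtain ⟨n, hn⟩ := exists_nat_ge (∑ a ∈ S, ∑ b ∈ S, dist a b)
    refine ⟨n + 1, by omega, fun a ha b hb => ?_⟩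
    have h1 : dist a b ≤ ∑ b ∈ S, dist a b :=
      Finset.single_le_sum (f := fun b => dist a b) (fun _ _ => dist_nonneg) hb
    have h2 : ∑ b ∈ S, dist a b ≤ ∑ a ∈ S, ∑ b ∈ S, dist a b :=
      Finset.single_le_sum (f := fun a => ∑ b ∈ S, dist a b)
        (fun _ _ => Finset.sum_nonneg fun _ _ => dist_nonneg) ha
    have h3 : (1 : ℝ) ≤ ρ := by exact_mod_cast hρ1
    have h4 : (0 : ℝ) ≤ n := Nat.cast_nonneg _
    push_cast
    nlinarith
  obtain ⟨h, hh⟩ := hX.homogeneous (ι := S) (fun x => J x []) (fun x => (x : X))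
    (fun x y => hJs x y [])
  let l : List ℕ := List.replicate k 0
  have hl : lam [] l = k := by rw [lam_nil]; simp [l]
  have hb : ∀ x ∈ S, ∀ a ∈ A, dist x (h (J a l)) = ρ * k := by
    intro x hx a ha
    have h1 : dist x (h (J a l)) = dist (J x []) (J a l) := by
      rw [← h.dist_eq (J x []), hh ⟨x, hx⟩]
    rw [h1, hJ, hl]
    exact max_eq_right (hk x hx a (Finset.mem_union_left _ ha))
  obtain ⟨g₁, hg₁⟩ := hX.homogeneous (ι := A) (fun a => (a : X)) (fun a => h (J a l))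
    (fun a b => by rw [h.dist_eq, hJs])
  have e1 := key k hk1 g₁ (fun a ha b hb' => by
    rw [hg₁ ⟨b, hb'⟩]
    exact hb a (Finset.mem_union_left _ ha) b hb')
  have e2 := key k hk1 (g₁⁻¹ * g) (fun a ha b hb' => by
    have h2 : dist a ((g₁⁻¹ * g : X ≃ᵢ X) b) = dist (g₁ a) (g b) := by
      rw [← g₁.dist_eq a]
      congr 1
      exact g₁.apply_symm_apply _
    rw [h2, hg₁ ⟨a, ha⟩, dist_comm]
    exact hb (g b) (Finset.mem_union_right _ (Finset.mem_image_of_mem _ hb')) a ha)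
  have e3 := length_mul α g₁ (g₁⁻¹ * g)
  rw [mul_inv_cancel_left] at e3
  linarith

/-- Every continuous affine isometric action of the isometry group of the rational Urysohn space on
a reflexive real Banach space has a fixed point. -/
theorem fixed_point (hX : IsQU X)
    (hrefl : Function.Surjective (NormedSpace.inclusionInDoubleDual ℝ E))
    (α : (X ≃ᵢ X) →* (E ≃ᵃⁱ[ℝ] E))
    (hα : ∀ (v : E) (g : X ≃ᵢ X) (ε : ℝ), 0 < ε →
      ∃ F : Finset X, ∀ h : X ≃ᵢ X, (∀ x ∈ F, h x = g x) → dist (α h v) (α g v) < ε) :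
    ∃ v : E, ∀ g : X ≃ᵢ X, α g v = v := by
  obtain ⟨A, hA⟩ := hα 0 1 1 one_pos
  obtain ⟨C, hC⟩ := bounded_orbit hX hrefl α A (fun h hh => by
    have h1 := hA h hh
    rw [map_one] at h1
    have h2 : (1 : E ≃ᵃⁱ[ℝ] E) 0 = 0 := rfl
    rw [h2, dist_zero_right] at h1
    exact h1)
  exact exists_fixed hrefl α C hC

end Run7.h658.QU
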