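import Mathlib

/-!
A fixed point theorem (Ryll-Nardzewski) for groups of affine isometries of a reflexive real Banach
space with a bounded orbit. The proof is by the slices of Namioka and Asplund.
-/

set_option autoImplicit false

open Set Topology

namespace Run7.h658.QU

section lctvs

variable {V : Type} [AddCommGroup V] [Module ℝ V] [TopologicalSpace V]
  [IsTopologicalAddGroup V] [ContinuousSMul ℝ V]

theorem isCompact_convexJoin {s t : Set V} (hs : IsCompact s) (ht : IsCompact t) :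
    IsCompact (convexJoin ℝ s t) := by
  have h1 : IsCompact ((s ×ˢ t) ×ˢ (Icc (0 : ℝ) 1)) := (hs.prod ht).prod isCompact_Icc
  have h2 : Continuous fun q : (V × V) × ℝ => (1 - q.2) • q.1.1 + q.2 • q.1.2 := by fun_prop
  have h3 : convexJoin ℝ s t =
      (fun q : (V × V) × ℝ => (1 - q.2) • q.1.1 + q.2 • q.1.2) '' ((s ×ˢ t) ×ˢ (Icc (0 : ℝ) 1)) := by
    ext x
    simp only [mem_convexJoin, segment_eq_image, mem_image, mem_prod, Prod.exists]
    constructor
    · rintro ⟨a, ha, b, hb, r, hr, rfl⟩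
      exact ⟨a, b, r, ⟨⟨ha, hb⟩, hr⟩, rfl⟩
    · rintro ⟨a, b, r, ⟨⟨ha, hb⟩, hr⟩, rfl⟩
      exact ⟨a, ha, b, hb, r, hr, rfl⟩
  rw [h3]
  exact h1.image h2

omit [TopologicalSpace V] [IsTopologicalAddGroup V] [ContinuousSMul ℝ V] in
theorem extreme_notMem_convexJoin {K s t : Set V} {e : V} (he : e ∈ K.extremePoints ℝ)
    (hs : s ⊆ K) (ht : t ⊆ K) (hes : e ∉ s) (het : e ∉ t) : e ∉ convexJoin ℝ s t := by
  intro h
  obtain ⟨a, ha, b, hb, h⟩ := mem_convexJoin.1 h
  rcases (mem_extremePoints_iff_forall_segment.1 he).2 a (hs ha) b (ht hb) h with h1 | h1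
  · exact hes (h1 ▸ ha)
  · exact het (h1 ▸ hb)

variable [T2Space V] [LocallyConvexSpace ℝ V]

/-- A form of the theorem of Milman. -/
theorem milman {K B : Set V} (hK : IsCompact K) (hKc : Convex ℝ K) (hB : IsCompact B)
    (hBK : B ⊆ K) {e : V} (he : e ∈ K.extremePoints ℝ) (heB : e ∉ B) :
    ∃ D : Set V, IsCompact D ∧ Convex ℝ D ∧ B ⊆ D ∧ D ⊆ K ∧ e ∉ D := by
  classical
  have h1 : ∀ b : V, b ∈ B → ∃ φ : StrongDual ℝ V, ∃ c : ℝ, φ b < c ∧ c < φ e := by
    intro b hb
    have hne : b ≠ e := fun h => heB (h ▸ hb)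
    obtain ⟨φ, hφ⟩ := geometric_hahn_banach_point_point hne
    exact ⟨φ, (φ b + φ e) / 2, by linarith, by linarith⟩
  choose! φ c h1 h2 using h1
  obtain ⟨t, ht⟩ := hB.elim_nhds_subcover' (fun b _ => {x | φ b x < c b}) (fun b hb => by
    refine IsOpen.mem_nhds ?_ (h1 b hb)
    exact isOpen_lt (φ b).continuous continuous_const)
  obtain ⟨D, hD1, hD2, hD3, hD4, hD5⟩ : ∃ D : Set V, IsCompact D ∧ Convex ℝ D ∧
      (∀ b ∈ t, K ∩ {x | φ b x ≤ c b} ⊆ D) ∧ D ⊆ K ∧ e ∉ D := by
    clear ht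
    induction t using Finset.induction_on with
    | empty => exact ⟨∅, isCompact_empty, convex_empty, by simp, empty_subset _, by simp⟩
    | insert b t hbt ih =>
      obtain ⟨D, hD1, hD2, hD3, hD4, hD5⟩ := ih
      have hC1 : IsCompact (K ∩ {x | φ b x ≤ c b}) :=
        hK.inter_right (isClosed_le (φ b).continuous continuous_const)
      have hC2 : Convex ℝ (K ∩ {x | φ b x ≤ c b}) :=
        hKc.inter (convex_halfSpace_le (φ b).toLinearMap.isLinear _)
      have hC3 : e ∉ K ∩ {x | φ b x ≤ c b} := fun h => not_le.2 (h2 b b.2) h.2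
      rcases (K ∩ {x | φ b x ≤ c b}).eq_empty_or_nonempty with h0 | h0
      · refine ⟨D, hD1, hD2, ?_, hD4, hD5⟩
        intro b' hb'
        rcases Finset.mem_insert.1 hb' with rfl | hb'
        · rw [h0]
          exact empty_subset _
        · exact hD3 b' hb'
      · rcases D.eq_empty_or_nonempty with h0' | h0'
        · refine ⟨_, hC1, hC2, ?_, inter_subset_left, hC3⟩
          intro b' hb'
          rcases Finset.mem_insert.1 hb' with rfl | hb'
          · exact subset_rfl
          · have := hD3 b' hb'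
            rw [h0'] at this
            exact this.trans (empty_subset _)
        · refine ⟨convexJoin ℝ D (K ∩ {x | φ b x ≤ c b}), isCompact_convexJoin hD1 hC1,
            hD2.convexJoin hC2, ?_, convexJoin_subset hD4 inter_subset_left hKc,
            extreme_notMem_convexJoin he hD4 inter_subset_left hD5 hC3⟩
          intro b' hb'
          rcases Finset.mem_insert.1 hb' with rfl | hb'
          · exact subset_convexJoin_right h0'
          · exact (hD3 b' hb').trans (subset_convexJoin_left h0)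
  refine ⟨D, hD1, hD2, fun x hx => ?_, hD4, hD5⟩
  have h3 := ht hx
  rw [mem_iUnion₂] at h3
  obtain ⟨b, hb, hxb⟩ := h3
  have hxb' : φ b x < c b := hxb
  exact hD3 b hb ⟨hBK hx, hxb'.le⟩

end lctvs

section slice

variable {E : Type} [NormedAddCommGroup E] [NormedSpace ℝ E]

theorem locallyConvex_weak : LocallyConvexSpace ℝ (WeakSpace ℝ E) :=
  inferInstanceAs (LocallyConvexSpace ℝ (WeakBilin (topDualPairing ℝ E).flip))

theorem isClosed_weak_ball (a : E) (δ : ℝ) :
    IsClosed {x : WeakSpace ℝ E | ‖(toWeakSpace ℝ E).symm x - a‖ ≤ δ} := by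
  have h1 := (convex_closedBall a δ).toWeakSpace_closure ℝ
  rw [Metric.isClosed_closedBall.closure_eq] at h1
  have h2 : {x : WeakSpace ℝ E | ‖(toWeakSpace ℝ E).symm x - a‖ ≤ δ} =
      (toWeakSpace ℝ E) '' (Metric.closedBall a δ) := by
    ext x
    constructor
    · intro h
      exact ⟨(toWeakSpace ℝ E).symm x, by rw [mem_closedBall_iff_norm]; exact h, by simp⟩
    · rintro ⟨y, hy, rfl⟩
      rw [mem_closedBall_iff_norm] at hy
      simpa using hy
  rw [h2, h1]
  exact isClosed_closure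

theorem convex_weak_ball (a : E) (δ : ℝ) :
    Convex ℝ {x : WeakSpace ℝ E | ‖(toWeakSpace ℝ E).symm x - a‖ ≤ δ} := by
  have h2 : {x : WeakSpace ℝ E | ‖(toWeakSpace ℝ E).symm x - a‖ ≤ δ} =
      (toWeakSpace ℝ E).symm ⁻¹' (Metric.closedBall a δ) := by
    ext x
    rw [mem_preimage, mem_closedBall_iff_norm]
    rfl
  rw [h2]
  exact (convex_closedBall a δ).linear_preimage (toWeakSpace ℝ E).symm.toLinearMap

/-- Slices of small diameter of a weakly compact convex separable set. -/
theorem exists_slice {K : Set (WeakSpace ℝ E)} (hK : IsCompact K) (hKc : Convex ℝ K)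
    (hKn : K.Nonempty) (D : ℕ → E)
    (hD : ∀ x ∈ K, ∀ δ : ℝ, 0 < δ → ∃ n, ‖(toWeakSpace ℝ E).symm x - D n‖ ≤ δ) (M : ℝ)
    (hM : ∀ x ∈ K, ∀ y ∈ K, ‖(toWeakSpace ℝ E).symm x - (toWeakSpace ℝ E).symm y‖ ≤ M)
    (ε : ℝ) (hε : 0 < ε) :
    ∃ (φ : StrongDual ℝ (WeakSpace ℝ E)) (c : ℝ), (∃ x ∈ K, c < φ x) ∧
      ∀ x ∈ K, ∀ y ∈ K, c < φ x → c < φ y →
        ‖(toWeakSpace ℝ E).symm x - (toWeakSpace ℝ E).symm y‖ ≤ ε := by
  classical
  have hlc : LocallyConvexSpace ℝ (WeakSpace ℝ E) := locallyConvex_weak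
  set w := (toWeakSpace ℝ E).symm with hw
  set δ := ε / 4 with hδ
  have hδ0 : 0 < δ := by positivity
  let P : Set (WeakSpace ℝ E) := closure (K.extremePoints ℝ)
  have hPK : P ⊆ K := closure_minimal extremePoints_subset hK.isClosed
  have hPc : IsCompact P := hK.of_isClosed_subset isClosed_closure hPK
  have hPn : P.Nonempty := (hK.extremePoints_nonempty hKn).mono subset_closure
  have : CompactSpace P := isCompact_iff_compactSpace.1 hPc
  have : Nonempty P := hPn.to_subtype
  obtain ⟨n, ⟨p, hp⟩⟩ := nonempty_interior_of_iUnion_of_closed (X := P) (ι := ℕ)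
    (f := fun n => {p : P | ‖w (p : WeakSpace ℝ E) - D n‖ ≤ δ})
    (fun n => (isClosed_weak_ball (D n) δ).preimage continuous_subtype_val)
    (by
      rw [eq_univ_iff_forall]
      intro p
      obtain ⟨n, hn⟩ := hD p (hPK p.2) δ hδ0
      exact mem_iUnion.2 ⟨n, hn⟩)
  obtain ⟨U, hU, hUo, hpU⟩ := mem_interior.1 hp
  obtain ⟨O, hO, rfl⟩ := isOpen_induced_iff.1 hUo
  obtain ⟨e, heO, he⟩ := mem_closure_iff.1 p.2 O hO hpU
  obtain ⟨C, hC1, hC2, hC3, hC4, hC5⟩ := milman hK hKc (B := P \ O) (hPc.diff hO)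
    (sdiff_subset.trans hPK) he (fun h => h.2 heO)
  let K2 : Set (WeakSpace ℝ E) := K ∩ {x | ‖w x - D n‖ ≤ δ}
  have hK2 : IsCompact K2 := hK.inter_right (isClosed_weak_ball (D n) δ)
  have hK2c : Convex ℝ K2 := hKc.inter (convex_weak_ball (D n) δ)
  have hP2 : ∀ x ∈ P, x ∈ O → x ∈ K2 := fun x hx hxO =>
    ⟨hPK hx, hU (show (⟨x, hx⟩ : P) ∈ _ from hxO)⟩
  have hK2n : K2.Nonempty := ⟨p, hP2 p p.2 hpU⟩
  -- the set is in the join
  have hjoin : ∀ x ∈ K, ∃ b ∈ K2, ∃ s : ℝ, 0 ≤ s ∧ s ≤ 1 ∧ ∃ a ∈ K,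
      (s ≠ 0 → a ∈ C) ∧ x = s • a + (1 - s) • b := by
    intro x hx
    rcases C.eq_empty_or_nonempty with h0 | h0
    · have h1 : K ⊆ K2 := by
        rw [← closure_convexHull_extremePoints hK hKc]
        refine closure_minimal (convexHull_min (fun y hy => ?_) hK2c) hK2.isClosed
        refine hP2 y (subset_closure hy) ?_
        by_contra hyO
        have := hC3 ⟨subset_closure hy, hyO⟩
        rw [h0] at this
        exact this
      exact ⟨x, h1 hx, 0, le_rfl, zero_le_one, x, hx, fun h => absurd rfl h, by simp⟩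
    · have h1 : K ⊆ convexJoin ℝ C K2 := by
        rw [← closure_convexHull_extremePoints hK hKc]
        refine closure_minimal (convexHull_min (fun y hy => ?_) (hC2.convexJoin hK2c))
          (isCompact_convexJoin hC1 hK2).isClosed
        by_cases hyO : y ∈ O
        · exact subset_convexJoin_right h0 (hP2 y (subset_closure hy) hyO)
        · exact subset_convexJoin_left hK2n (hC3 ⟨subset_closure hy, hyO⟩)
      obtain ⟨a, ha, b, hb, hx⟩ := mem_convexJoin.1 (h1 hx)
      obtain ⟨s, t, hs, ht, hst, rfl⟩ := hx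
      refine ⟨b, hb, s, hs, by linarith, a, hC4 ha, fun _ => ha, ?_⟩
      rw [← hst]
      congr 2
      ring
  obtain ⟨φ, u, hφC, hφe⟩ := geometric_hahn_banach_closed_point hC2 hC1.isClosed hC5
  obtain ⟨z, hzK, hz⟩ := hK.exists_isMaxOn hKn φ.continuous.continuousOn
  have hz' : ∀ x ∈ K, φ x ≤ φ z := fun x hx => hz hx
  have hum : u < φ z := hφe.trans_le (hz' e he.1)
  have hM0 : 0 ≤ M := (norm_nonneg _).trans (hM z hzK z hzK)
  -- the level
  let c : ℝ := φ z - (φ z - u) * (δ / (M + δ))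
  have hMδ : 0 < M + δ := by linarith
  have hc1 : c < φ z := by
    have : 0 < (φ z - u) * (δ / (M + δ)) := mul_pos (by linarith) (by positivity)
    simp only [c]
    linarith
  have key : ∀ x ∈ K, c < φ x → ‖w x - D n‖ ≤ 2 * δ := by
    intro x hx hcx
    obtain ⟨b, hb, s, hs0, hs1, a, ha, haC, hxab⟩ := hjoin x hx
    have h1 : ‖w x - w b‖ ≤ δ := by
      have e1 : w x - w b = s • (w a - w b) := by
        rw [hxab, map_add, map_smul, map_smul, smul_sub, sub_smul, one_smul]
        abel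
      rw [e1, norm_smul, Real.norm_of_nonneg hs0]
      rcases eq_or_ne s 0 with h0 | h0
      · rw [h0, zero_mul]
        exact hδ0.le
      · have h2 : φ x ≤ s * u + (1 - s) * φ z := by
          rw [hxab, map_add, map_smul, map_smul, smul_eq_mul, smul_eq_mul]
          have := hφC a (haC h0)
          have := hz' b hb.1
          have h3 : s * φ a ≤ s * u := mul_le_mul_of_nonneg_left (by linarith) hs0
          have h4 : (1 - s) * φ b ≤ (1 - s) * φ z :=
            mul_le_mul_of_nonneg_left (by linarith) (by linarith)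
          linarith
        have h3 : s * (φ z - u) < (φ z - u) * (δ / (M + δ)) := by
          have : c = φ z - (φ z - u) * (δ / (M + δ)) := rfl
          nlinarith
        have h4 : s < δ / (M + δ) := by
          rw [mul_comm] at h3
          exact lt_of_mul_lt_mul_left h3 (by linarith)
        calc s * ‖w a - w b‖ ≤ (δ / (M + δ)) * M :=
              mul_le_mul h4.le (hM a ha b hb.1) (norm_nonneg _) (by positivity)
          _ ≤ δ := by
              rw [div_mul_eq_mul_div, div_le_iff₀ hMδ]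
              nlinarith
    have h2 : ‖w b - D n‖ ≤ δ := hb.2
    calc ‖w x - D n‖ = ‖(w x - w b) + (w b - D n)‖ := by congr 1; abel
      _ ≤ ‖w x - w b‖ + ‖w b - D n‖ := norm_add_le _ _
      _ ≤ 2 * δ := by linarith
  refine ⟨φ, c, ⟨z, hzK, hc1⟩, fun x hx y hy hcx hcy => ?_⟩
  have h1 := key x hx hcx
  have h2 := key y hy hcy
  calc ‖w x - w y‖ = ‖(w x - D n) - (w y - D n)‖ := by congr 1; abel
    _ ≤ ‖w x - D n‖ + ‖w y - D n‖ := norm_sub_le _ _
    _ ≤ ε := by linarith

end slice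

end Run7.h658.QU
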